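import Pool.Agent.P.MP_cd1425_an.Cl.Crit

/-! The counterexample on `c0`. -/

set_option autoImplicit false

open Filter Topology Finset
open scoped ZeroAtInfty

namespace Pool.Agent.P.MP_cd1425_an.Cl

/-- The weight function. -/
def lam (k t : ℕ) : ℕ :=
  if t < 4 ^ k then t else max (t - 4 ^ (k + 1)) ((range k).sup fun l => (range (l + 1)).sup fun d =>
    if (t + d) % 4 ^ (l + 2) ≤ l then l - d else 0)

lemma le_lam {k t l d : ℕ} (ht : 4 ^ k ≤ t) (hl : l < k) (hd : d ≤ l)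
    (h : (t + d) % 4 ^ (l + 2) ≤ l) : l - d ≤ lam k t := by
  rw [lam, if_neg (by omega)]
  exact le_max_of_le_right (le_sup_of_le (mem_range.2 hl)
    (le_sup_of_le (mem_range.2 (Nat.lt_succ_of_le hd)) (if_pos h).ge))

lemma le_lam' (k t : ℕ) : t ≤ lam k t + 4 ^ (k + 1) := by
  unfold lam
  split_ifs <;> omega

lemma lam_le {k t M : ℕ} (ht : 4 ^ k ≤ t) (h1 : t ≤ M + 4 ^ (k + 1))
    (h2 : ∀ l < k, ∀ d ≤ l, (t + d) % 4 ^ (l + 2) ≤ l → l - d ≤ M) : lam k t ≤ M := by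
  rw [lam, if_neg (by omega)]
  refine max_le (by omega) (Finset.sup_le fun l hl => Finset.sup_le fun d hd => ?_)
  split_ifs with h
  exacts [h2 l (mem_range.1 hl) d (Nat.le_of_lt_succ (mem_range.1 hd)) h, Nat.zero_le _]

lemma lam_low {k t : ℕ} (ht : t < 4 ^ k) : lam k t = t := if_pos ht

lemma lam_le_add (k t : ℕ) : lam k t ≤ k + t := by
  rcases lt_or_ge t (4 ^ k) with h | h
  · rw [lam_low h]; omega
  · exact lam_le h ((t.le_add_left k).trans (Nat.le_add_right _ _)) fun _ _ _ _ _ => by omega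

lemma lam_succ (k t : ℕ) : lam k (t + 1) ≤ lam k t + 1 := by
  have h4 : k < 4 ^ k := Nat.lt_pow_self (by norm_num)
  rcases lt_or_ge (t + 1) (4 ^ k) with h | h
  · rw [lam_low h, lam_low (by omega)]
  refine lam_le h (by have := le_lam' k t; omega) fun l hl d hd h' => ?_
  rcases lt_or_ge t (4 ^ k) with c | c
  · rw [lam_low c]; omega
  rcases hd.lt_or_eq with hd | hd
  · have := le_lam c hl hd (by rwa [show t + d.succ = t + 1 + d by omega])
    omega
  · omega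

lemma avg_lam (k : ℕ) : avg k (fun t => 1 + lam k t) ≤ 9 := by
  have hs : ∀ {s : Finset ℕ} (f : ℕ → ℕ → ℝ),
      avg k (fun n => ∑ i ∈ s, f i n) = ∑ i ∈ s, avg k (f i) := fun f => by
    simp only [avg]
    rw [sum_comm, sum_div]
  have h8 : ∀ m : ℕ, ∑ l ∈ range m, ((l + 1) * (l * (1 / 2) ^ l) : ℝ) =
      8 - (2 * m ^ 2 + 6 * m + 8) * (1 / 2) ^ m := fun m => by
    induction m with
    | zero => simp
    | succ m ih => rw [sum_range_succ, ih]; push_cast; ring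
  rw [avg_add, avg_const]
  have h1 : avg k (fun t => lam k t) ≤ avg k fun t => ∑ l ∈ range k, ∑ d ∈ range (l + 1),
      l * if (d + t) % 4 ^ (l + 2) ≤ l then 1 else 0 := avg_mono fun t h1 h2 => by
    refine mod_cast lam_le h1 (by omega) fun l hl d hd h => ?_
    refine le_trans ?_ (single_le_sum (fun _ _ => Nat.zero_le _) (mem_range.2 hl))
    refine le_trans ?_ (single_le_sum (fun _ _ => Nat.zero_le _) (mem_range_succ_iff.2 hd))
    rw [if_pos (by rwa [add_comm])]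
    omega
  have h2 : ∀ l ∈ range k, avg k (fun t => ∑ d ∈ range (l + 1),
      l * if (d + t) % 4 ^ (l + 2) ≤ l then 1 else 0) ≤ (l + 1) * (l * (1 / 2) ^ l) := fun l hl => by
    rw [hs]
    refine (sum_le_card_nsmul _ _ (l * (1 / 2) ^ l : ℝ) fun d _ => ?_).trans_eq (by simp)
    rw [avg_mul]
    gcongr
    exact avg_mod_le d k l (mem_range.1 hl)
  rw [hs] at h1
  have h3 := (sum_le_sum h2).trans_eq (h8 k)
  have : (0 : ℝ) ≤ (2 * k ^ 2 + 6 * k + 8) * (1 / 2) ^ k := by positivity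
  linarith

variable {𝕜 : Type} [RCLike 𝕜] {d : D 𝕜} {i K : ℕ}

lemma lam_ret {l n k t : ℕ} (hn : n ∈ retA i K l) (h : yy d i K k (n + t) - yy d i K k t ≠ 0) :
    l ≤ lam k t := by
  have hKl : K ≤ l := hn.2.1 ▸ hn.1.2.1
  have h1 := le_lam' k t
  have h4 : ∀ m, m < 4 ^ m := fun m => Nat.lt_pow_self (by norm_num)
  by_contra hc
  refine h (sub_eq_zero.2 ?_)
  rcases le_or_gt k l with hk | hk
  · have := Nat.pow_le_pow_right (show 0 < 4 by norm_num) (Nat.succ_le_succ hk)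
    exact yy_copy hn (by have := h4 (l + 1); rw [pow_succ 4 (l + 1)]; omega) hk
  rcases le_or_gt t l with ht | ht
  · rw [yy_zero_ret hn ht hk, yy_small (by omega) (by omega)]
  have h2 : 4 ^ k ≤ t := by
    by_contra c
    rw [lam_low (by omega)] at hc
    omega
  rw [yy_block (m := t) (by omega) h2 (by have := h4 (k + 1); omega)]
  have h3 : ¬ (n + t) % 4 ^ (l + 2) ≤ l := fun c => hc (le_lam (d := 0) h2 hk (Nat.zero_le _) (by
    obtain ⟨c', rfl⟩ := hn.2.2
    rwa [Nat.mul_add_mod] at c))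
  rcases lt_or_ge t (4 ^ (k + 1)) with c | c
  · exact yy_ret_block (j := 0) hn (Nat.zero_le _) hk h2 c h3
  · have e : n + t = n + l + (t - l) := by omega
    rw [e] at h3 ⊢
    exact yy_ret_block hn le_rfl hk (by have := h4 k; rw [pow_succ] at c; omega) (by omega) h3

lemma lam_big {k t : ℕ} (hk : K < k)
    (h : yy d i K k t - (if k < t then gk k (dirs 𝕜 i) else 0) ≠ 0) :
    k ≤ lam k t ∧ t ≤ 2 * lam k t := by
  have h1 := le_lam' k t
  have h4 : k + 1 < 4 ^ (k + 1) := Nat.lt_pow_self (by norm_num)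
  split_ifs at h with c
  · rcases lt_or_ge t (4 ^ k) with c' | c'
    · rw [lam_low c']; omega
    · have : 2 * 4 ^ (k + 1) ≤ t := not_lt.1 fun e => h (by rw [yy_block hk c' e, sub_self])
      omega
  · exact absurd (by rw [yy_small hk (by omega), sub_self]) h

/-- The index set. -/
abbrev I0 := Bool ⊕ ℕ × ℕ

lemma null_iff (f : I0 → 𝕜) : Tendsto f cofinite (𝓝 0) ↔
    ∀ ε > 0, ∃ R, ∀ k t, R ≤ k + t → ‖f (.inr (k, t))‖ ≤ ε := by
  rw [NormedAddGroup.tendsto_nhds_zero]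
  refine ⟨fun h ε hε => ?_, fun h ε hε => ?_⟩
  · obtain ⟨R, hR⟩ := ((h ε hε).image (Sum.elim (fun _ => 0) fun p => p.1 + p.2)).bddAbove
    refine ⟨R + 1, fun k t hk => not_lt.1 fun c => ?_⟩
    have : k + t ≤ R := hR ⟨.inr (k, t), c.le.not_gt, rfl⟩
    omega
  · obtain ⟨R, hR⟩ := h (ε / 2) (half_pos hε)
    refine ((Set.finite_range Sum.inl).union
      (((Set.finite_Iio R).prod (Set.finite_Iio R)).image Sum.inr)).subset ?_
    rintro (b | ⟨k, t⟩) ha
    · exact .inl ⟨b, rfl⟩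
    · have : k + t < R := not_le.1 fun c => ha ((hR k t c).trans_lt (half_lt_self hε))
      exact .inr ⟨(k, t), ⟨show k < R by omega, show t < R by omega⟩, rfl⟩

/-- The weights. -/
noncomputable def W (𝕜 : Type) [RCLike 𝕜] (k t : ℕ) : 𝕜 := ((1 + lam k t : ℝ) : 𝕜)

lemma norm_W (k t : ℕ) : ‖W 𝕜 k t‖ = 1 + lam k t := RCLike.norm_of_nonneg (by positivity)

lemma W_ne (k t : ℕ) : W 𝕜 k t ≠ 0 := norm_pos_iff.1 (by rw [norm_W]; positivity)

lemma div_W_le {a : 𝕜} {B : ℝ} {l k t : ℕ} (ha : ‖a‖ ≤ B) (h : a ≠ 0 → l ≤ lam k t) :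
    ‖a / W 𝕜 k t‖ ≤ B / (1 + l) := by
  have := (norm_nonneg a).trans ha
  rcases eq_or_ne a 0 with rfl | h0
  · rw [zero_div, norm_zero]; positivity
  · rw [norm_div, norm_W]
    gcongr
    exact h h0

lemma exists_div_le (B : ℝ) {ε : ℝ} (hε : 0 < ε) (K : ℕ) : ∃ l : ℕ, K ≤ l ∧ B / (1 + l) ≤ ε := by
  obtain ⟨l, hl⟩ := exists_nat_ge (B / ε)
  refine ⟨l + K, by omega, ?_⟩
  rw [div_le_iff₀ (by positivity)] at hl ⊢
  push_cast
  nlinarith [K.cast_nonneg (α := ℝ)]

/-- The coordinates of an array. -/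
noncomputable def ofY (v : 𝕜 × 𝕜) (y : ℕ → ℕ → 𝕜) : I0 → 𝕜
  | .inl b => if b then v.2 else v.1
  | .inr p => (y p.1 p.2 - if p.1 < p.2 then gk p.1 v else 0) / W 𝕜 p.1 p.2

/-- Evaluation. -/
noncomputable def evc (a : I0) : C₀(I0, 𝕜) →L[𝕜] 𝕜 :=
  LinearMap.mkContinuous ⟨⟨fun f => f a, fun _ _ => rfl⟩, fun _ _ => rfl⟩ 1
    fun f => by simpa using c0_le f a

/-- The projection on the plane. -/
noncomputable def P0 : C₀(I0, 𝕜) →L[𝕜] 𝕜 × 𝕜 := (evc (.inl false)).prod (evc (.inl true))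

lemma norm_P0 (f : C₀(I0, 𝕜)) : ‖P0 f‖ ≤ ‖f‖ := max_le (c0_le f _) (c0_le f _)

/-- The array of a vector. -/
noncomputable def Y0 (f : C₀(I0, 𝕜)) (k t : ℕ) : 𝕜 :=
  W 𝕜 k t * f (.inr (k, t)) + if k < t then gk k (P0 f) else 0

lemma shift_le (f : C₀(I0, 𝕜)) (k t : ℕ) : ‖ofY (P0 f) (fun k t => Y0 f k (t + 1)) (.inr (k, t))‖ ≤
    2 * ‖f (.inr (k, t + 1))‖ + if k = t then 2 * ‖f‖ / (1 + k) else 0 := by
  have e : ofY (P0 f) (fun k t => Y0 f k (t + 1)) (.inr (k, t)) = W 𝕜 k (t + 1) / W 𝕜 k t *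
      f (.inr (k, t + 1)) + (if k = t then gk k (P0 f) else 0) / W 𝕜 k t := by
    simp only [ofY, Y0]
    split_ifs <;> first | omega | ring
  rw [e]
  refine (norm_add_le _ _).trans (add_le_add ?_ ?_)
  · rw [norm_mul, norm_div, norm_W, norm_W]
    gcongr
    have : (lam k (t + 1) : ℝ) ≤ lam k t + 1 := mod_cast lam_succ k t
    rw [div_le_iff₀ (by positivity)]
    linarith [(lam k t).cast_nonneg (α := ℝ)]
  · split_ifs with h
    · exact div_W_le ((norm_gk_le _ _).trans (by linarith [norm_P0 f])) fun _ => by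
        rw [← h, lam_low (Nat.lt_pow_self (by norm_num))]
    · simp

lemma shift_null (f : C₀(I0, 𝕜)) :
    Tendsto (ofY (P0 f) fun k t => Y0 f k (t + 1)) cofinite (𝓝 0) := by
  refine (null_iff _).2 fun ε hε => ?_
  obtain ⟨R, hR⟩ := (null_iff _).1 (c0_null f) (ε / 4) (by positivity)
  obtain ⟨l, h1, h2⟩ := exists_div_le (2 * ‖f‖) (half_pos hε) R
  refine ⟨2 * l, fun k t h => (shift_le f k t).trans ?_⟩
  have := hR k (t + 1) (by omega)
  split_ifs with c
  · have : 2 * ‖f‖ / (1 + k) ≤ 2 * ‖f‖ / (1 + l) := by gcongr; omega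
    linarith
  · linarith

lemma mk0_apply (f : I0 → 𝕜) (h : Tendsto f cofinite (𝓝 0)) (a : I0) : mk0 f h a = f a := rfl

/-- The operator. -/
noncomputable def T0 : C₀(I0, 𝕜) →L[𝕜] C₀(I0, 𝕜) :=
  LinearMap.mkContinuous
    { toFun := fun f => mk0 _ (shift_null f)
      map_add' := fun f g => DFunLike.ext _ _ fun a => by
        rw [ZeroAtInftyContinuousMap.add_apply, mk0_apply, mk0_apply, mk0_apply]
        rcases a with b | p <;> simp only [ofY, Y0, map_add, Prod.fst_add, Prod.snd_add,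
          ZeroAtInftyContinuousMap.add_apply] <;> split_ifs <;> ring
      map_smul' := fun c f => DFunLike.ext _ _ fun a => by
        rw [ZeroAtInftyContinuousMap.smul_apply, mk0_apply, mk0_apply, RingHom.id_apply]
        rcases a with b | p <;> simp only [ofY, Y0, map_smul, Prod.smul_fst, Prod.smul_snd,
          ZeroAtInftyContinuousMap.smul_apply, smul_eq_mul] <;> split_ifs <;> ring } 4 fun f => by
      have h0 := norm_nonneg f
      refine c0_norm_le _ (by positivity) ?_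
      rintro (b | ⟨k, t⟩)
      · have : ‖ofY (P0 f) (fun k t => Y0 f k (t + 1)) (.inl b)‖ ≤ ‖f‖ := by
          cases b <;> exact c0_le f _
        exact this.trans (by linarith)
      · refine (shift_le f k t).trans ?_
        have := c0_le f (.inr (k, t + 1))
        have := div_le_self (show 0 ≤ 2 * ‖f‖ by positivity)
          (show (1 : ℝ) ≤ 1 + k by linarith [k.cast_nonneg (α := ℝ)])
        split_ifs <;> linarith

lemma Y0_mk (v : 𝕜 × 𝕜) (y : ℕ → ℕ → 𝕜) (h : Tendsto (ofY v y) cofinite (𝓝 0)) (k t : ℕ) :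
    Y0 (mk0 _ h) k t = y k t := by
  change W 𝕜 k t * (_ / _) + (if k < t then gk k v else 0) = _
  rw [mul_div_cancel₀ _ (W_ne k t), sub_add_cancel]

lemma T0_pow (f : C₀(I0, 𝕜)) (n : ℕ) :
    P0 ((T0 ^ n) f) = P0 f ∧ ∀ k t, Y0 ((T0 ^ n) f) k t = Y0 f k (n + t) := by
  induction n with
  | zero => simp
  | succ n ih =>
    rw [pow_succ', mul_apply_eq_comp]
    exact ⟨ih.1, fun k t => (Y0_mk _ _ (shift_null _) k t).trans (by
      rw [ih.2, add_right_comm, add_assoc])⟩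

lemma coord_eq (f : C₀(I0, 𝕜)) (k t : ℕ) :
    f (.inr (k, t)) = (Y0 f k t - if k < t then gk k (P0 f) else 0) / W 𝕜 k t := by
  rw [Y0, add_sub_cancel_right, mul_div_cancel_left₀ _ (W_ne k t)]

lemma num_le {B : ℝ} (hB : ∀ k n, ‖d.y k n‖ ≤ B) (k t : ℕ) :
    ‖yy d i K k t - if k < t then gk k (dirs 𝕜 i) else 0‖ ≤
      max B (2 * ‖dirs 𝕜 i‖) + 2 * ‖dirs 𝕜 i‖ := by
  refine (norm_sub_le _ _).trans (add_le_add (norm_yy_le hB k t) ?_)
  split_ifs
  exacts [norm_gk_le _ _, by simp]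

variable (d i K) in
lemma yy_null : Tendsto (ofY (dirs 𝕜 i) (yy d i K)) cofinite (𝓝 0) := by
  obtain ⟨B, hB⟩ := d.bdd
  refine (null_iff _).2 fun ε hε => ?_
  obtain ⟨l, -, h⟩ := exists_div_le (max B (2 * ‖dirs 𝕜 i‖) + 2 * ‖dirs 𝕜 i‖) hε 0
  refine ⟨3 * l + K + 4 ^ (K + 1), fun k t hk =>
    (div_W_le (k := k) (t := t) (num_le hB k t) fun c => ?_).trans h⟩
  rcases le_or_gt k K with c' | c'
  · have := le_lam' k t
    have := Nat.pow_le_pow_right (show 0 < 4 by norm_num) (Nat.succ_le_succ c')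
    omega
  · have := lam_big c' c
    have := Nat.zero_le (4 ^ (K + 1))
    omega

variable (d i K) in
lemma yy_rec : mk0 _ (yy_null d i K) ∈ recVectors (fun A => 0 < lowerDensity A) T0 := by
  intro U hU
  obtain ⟨ε, hε, hb⟩ := Metric.nhds_basis_closedBall.mem_iff.1 hU
  obtain ⟨B, hB⟩ := d.bdd
  obtain ⟨l, h1, h2⟩ := exists_div_le (max B (2 * ‖dirs 𝕜 i‖) + max B (2 * ‖dirs 𝕜 i‖)) hε K
  refine lowerDensity_retA (i := i) h1 fun n hn => hb ?_
  rw [mem_closedBall_iff_norm, ← FunLike.coe_pow_eq_iterate]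
  obtain ⟨e1, e2⟩ := T0_pow (mk0 _ (yy_null d i K)) n
  refine c0_norm_le _ hε.le ?_
  rintro (b | ⟨k, t⟩) <;> rw [ZeroAtInftyContinuousMap.sub_apply]
  · rw [sub_eq_zero.2, norm_zero]
    · exact hε.le
    · cases b
      exacts [congrArg Prod.fst e1, congrArg Prod.snd e1]
  · rw [coord_eq, coord_eq (mk0 _ _), e1, e2, Y0_mk, Y0_mk, ← sub_div, sub_sub_sub_cancel_right]
    exact (div_W_le ((norm_sub_le _ _).trans (add_le_add (norm_yy_le hB ..) (norm_yy_le hB ..)))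
      (lam_ret hn)).trans h2

lemma T0_rec : FrequentlyRecurrent (T0 (𝕜 := 𝕜)) := by
  refine fun f => Metric.mem_closure_iff.2 fun ε hε => ?_
  obtain ⟨R, hR⟩ := (null_iff _).1 (c0_null f) (ε / 4) (by positivity)
  obtain ⟨i, hi⟩ := (dirs_dense 𝕜).exists_dist_lt (P0 f) (half_pos hε)
  obtain ⟨K, h1, h2⟩ := exists_div_le (max ((1 + R) * ‖f‖ + 2 * ‖dirs 𝕜 i‖) (2 * ‖dirs 𝕜 i‖) +
    2 * ‖dirs 𝕜 i‖) (show 0 < ε / 4 by positivity) R
  let y : ℕ → ℕ → 𝕜 := fun k t => if k ≤ K then (if k + t < R then W 𝕜 k t * f (.inr (k, t))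
    else 0) + (if k < t then gk k (dirs 𝕜 i) else 0) else 0
  have hB : ∀ k t, ‖y k t‖ ≤ (1 + R) * ‖f‖ + 2 * ‖dirs 𝕜 i‖ := fun k t => by
    simp only [y]
    by_cases c : k ≤ K
    · rw [if_pos c]
      refine (norm_add_le _ _).trans (add_le_add ?_ ?_) <;> split_ifs with c'
      · rw [norm_mul, norm_W]
        gcongr
        exacts [(lam_le_add k t).trans c'.le, c0_le f _]
      · rw [norm_zero]; positivity
      exacts [norm_gk_le _ _, by simp]
    · rw [if_neg c, norm_zero]; positivity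
  have hy : ∀ᶠ k in atTop, ∀ t, y k t = 0 :=
    (eventually_gt_atTop K).mono fun k hk t => if_neg hk.not_ge
  let d : D 𝕜 := D.mk 0 y ⟨_, hB⟩ (fun j => tendsto_const_nhds.congr' (hy.mono fun k hk =>
    (hk j).symm)) fun j => tendsto_const_nhds.congr' (hy.mono fun k hk => by simp [hk, avg])
  refine ⟨_, yy_rec d i K, ?_⟩
  rw [dist_eq_norm] at hi ⊢
  refine (c0_norm_le _ (half_pos hε).le ?_).trans_lt (half_lt_self hε)
  rintro (b | ⟨k, t⟩)
  · cases b
    exacts [(norm_fst_le (P0 f - dirs 𝕜 i)).trans hi.le, (norm_snd_le (P0 f - dirs 𝕜 i)).trans hi.le]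
  change ‖f _ - (_ - _) / _‖ ≤ _
  have h4 : K + 1 < 4 ^ (K + 1) := Nat.lt_pow_self (by norm_num)
  by_cases c : k ≤ K ∧ t < 2 * 4 ^ (K + 2)
  · rw [yy_low c.1 c.2, show d.y k t = _ from if_pos c.1, add_sub_cancel_right]
    split_ifs with c'
    · rw [mul_div_cancel_left₀ _ (W_ne k t), sub_self, norm_zero]; positivity
    · rw [zero_div, sub_zero]; linarith [hR k t (by omega)]
  · rw [pow_succ] at c
    have h5 := div_W_le (l := K) (k := k) (t := t) (num_le (d := d) (i := i) (K := K) hB k t)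
      fun e => by
        rcases le_or_gt k K with c' | c'
        · have := le_lam' k t
          have := Nat.pow_le_pow_right (show 0 < 4 by norm_num) (Nat.succ_le_succ c')
          omega
        · exact c'.le.trans (lam_big c' e).1
    exact (norm_sub_le _ _).trans (by linarith [hR k t (by omega)])

theorem bad_c0 : Bad 𝕜 C₀(I0, 𝕜) := by
  have hP : Function.Surjective (P0 (𝕜 := 𝕜)) := fun v => ⟨mk0 _ ((null_iff (ofY v fun k t =>
    if k < t then gk k v else 0)).2 fun ε hε => ⟨0, fun k t _ => by simp [ofY, hε.le]⟩),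
    Prod.ext rfl rfl⟩
  have he (k : ℕ) (f : C₀(I0, 𝕜)) : ‖evc (.inr (k, 0)) f‖ ≤ 1 * ‖f‖ :=
    (c0_le f _).trans_eq (one_mul _).symm
  have := crit T0 P0 hP (fun k => evc (.inr (k, 0))) (fun k => dirs 𝕜 (tag k).1)
    (fun k => dirs_ne 𝕜 _) one_pos he
  refine ⟨T0, T0_rec, this (fun f => ?_) fun f => ?_⟩ <;>
    refine Metric.tendsto_nhds.2 fun ε hε => ?_ <;>
    obtain ⟨R, hR⟩ := (null_iff _).1 (c0_null f) (ε / 10) (by positivity) <;>
    filter_upwards [eventually_ge_atTop R] with k hk <;>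
    rw [Real.dist_eq, sub_zero]
  · rw [abs_norm]
    exact (hR k 0 hk).trans_lt (by linarith)
  · rw [abs_of_nonneg (apply_nonneg _ _), th_apply]
    refine lt_of_le_of_lt (avg_mono (g := fun t => ε / 10 * (1 + lam k t)) fun t h1 _ => ?_) ?_
    · have h4 : k < 4 ^ k := Nat.lt_pow_self (by norm_num)
      have e := (T0_pow f t).2 k 0
      rw [Y0, Y0, if_neg (by omega), if_pos (by omega), W, lam_low (by positivity)] at e
      simp only [Nat.cast_zero, add_zero, RCLike.ofReal_one, one_mul] at e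
      change ‖(T0 ^ t) f _ - gk k _‖ ≤ _
      rw [e, add_sub_cancel_right, norm_mul, norm_W, mul_comm]
      gcongr
      exact hR k t (by omega)
    · rw [avg_mul]
      nlinarith [avg_lam k]

end Pool.Agent.P.MP_cd1425_an.Cl
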