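import Pool.Agent.P.MP_cd1425_an.Cex4

/-! A criterion for non-recurrence of direct sums, transfer to complemented copies, and tools for
the spaces `l1` and `c0`. -/

set_option autoImplicit false

open Filter Topology
open scoped ZeroAtInfty

namespace Pool.Agent.P.MP_cd1425_an.Cl

variable {𝕜 : Type} [RCLike 𝕜] {X Y : Type*} [NormedAddCommGroup X] [NormedSpace 𝕜 X]
  [NormedAddCommGroup Y] [NormedSpace 𝕜 Y]

variable (𝕜 X) in
/-- The space carries a counterexample. -/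
def Bad : Prop := ∃ T : X →L[𝕜] X, FrequentlyRecurrent T ∧
  ∀ n, 2 ≤ n → ¬ UFrequentlyRecurrent (directSum n T)

variable (𝕜 X Y) in
/-- `Y` is isomorphic to a complemented subspace of `X`. -/
def Compl : Prop := ∃ (J : Y →L[𝕜] X) (Q : X →L[𝕜] Y), ∀ y, Q (J y) = y

theorem Bad.of_compl (h : Compl 𝕜 X Y) (hY : Bad 𝕜 Y) : Bad 𝕜 X := by
  obtain ⟨J, Q, hJ⟩ := h
  obtain ⟨T, h1, h2⟩ := hY
  refine ⟨J ∘L T ∘L Q + (1 - J ∘L Q), fun x => ?_, fun n hn h => h2 n hn ?_⟩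
  · have hc : Continuous fun y => J y + (x - J (Q x)) := by fun_prop
    have := map_mem_closure hc (h1 (Q x)) fun y hy => recVectors_map (S := T)
      (T := (J ∘L T ∘L Q + (1 - J ∘L Q) : X →L[𝕜] X)) hc (fun y => by simp [hJ]) hy
    simpa using this
  · intro y
    have hc : Continuous fun (x : Fin n → X) i => Q (x i) := by fun_prop
    have := map_mem_closure hc (h fun i => J (y i)) fun x hx => recVectors_map
      (T := directSum n T) hc (fun x => by ext i; simp [directSum, hJ]) hx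
    simpa [hJ] using this

lemma directSum_iterate {ι : ℕ} (T : X →L[𝕜] X) (ξ : Fin ι → X) (m : ℕ) (i : Fin ι) :
    (directSum ι T)^[m] ξ i = (T ^ m) (ξ i) := by
  rw [FunLike.coe_pow_eq_iterate]
  exact Function.Semiconj.iterate_right (f := fun η : Fin ι → X => η i)
    (ga := directSum ι T) (gb := T) (fun _ => rfl) m ξ

/-- The mean deviation on the block `k`. -/
noncomputable def th (T : X →L[𝕜] X) (P : X →L[𝕜] 𝕜 × 𝕜) (e : X →L[𝕜] 𝕜) (g : 𝕜 × 𝕜) (k : ℕ) :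
    Seminorm 𝕜 X :=
  .of (fun x => avg k fun n => ‖e ((T ^ n) x) - gl g (P x)‖)
    (fun x y => by
      rw [← avg_add]
      refine avg_mono fun n _ _ => ?_
      rw [map_add, map_add, map_add, map_add, add_sub_add_comm]
      exact norm_add_le _ _)
    (fun c x => by simp only [← avg_mul, map_smul, ← smul_sub, norm_smul])

lemma th_apply (T : X →L[𝕜] X) (P : X →L[𝕜] 𝕜 × 𝕜) (e : X →L[𝕜] 𝕜) (g : 𝕜 × 𝕜) (k : ℕ) (x : X) :
    th T P e g k x = avg k fun n => ‖e ((T ^ n) x) - gl g (P x)‖ := rfl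

lemma continuous_th (T : X →L[𝕜] X) (P : X →L[𝕜] 𝕜 × 𝕜) (e : X →L[𝕜] 𝕜) (g : 𝕜 × 𝕜) (k : ℕ) :
    Continuous (th T P e g k) := by
  have : Continuous (gl g) := LinearMap.continuous_of_finiteDimensional _
  change Continuous fun x => avg k fun n => ‖e ((T ^ n) x) - gl g (P x)‖
  unfold avg
  fun_prop

theorem crit (T : X →L[𝕜] X) (P : X →L[𝕜] 𝕜 × 𝕜) (hP : Function.Surjective P)
    (e : ℕ → X →L[𝕜] 𝕜) (g : ℕ → 𝕜 × 𝕜) (hg : ∀ k, g k ≠ 0) {C : ℝ} (hC : 0 < C)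
    (he : ∀ k x, ‖e k x‖ ≤ C * ‖x‖) (h0 : ∀ x, Tendsto (fun k => ‖e k x‖) atTop (𝓝 0))
    (hθ : ∀ x, Tendsto (fun k => th T P (e k) (g k) k x) atTop (𝓝 0)) (n : ℕ) (hn : 2 ≤ n) :
    ¬ UFrequentlyRecurrent (directSum n T) := by
  intro h
  let i₀ : Fin n := ⟨0, by omega⟩
  let i₁ : Fin n := ⟨1, by omega⟩
  obtain ⟨u, hu⟩ := hP (1, 0)
  obtain ⟨v, hv⟩ := hP (0, 1)
  obtain ⟨ξ, ⟨hx, hy⟩, hξ⟩ := h.inter_open_nonempty
    ({ξ | ‖P (ξ i₀) - (1, 0)‖ < 1 / 8} ∩ {ξ | ‖P (ξ i₁) - (0, 1)‖ < 1 / 8})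
    ((isOpen_lt (by fun_prop) continuous_const).inter (isOpen_lt (by fun_prop) continuous_const))
    ⟨fun i => if i = i₀ then u else v, by simp [hu], by simp [i₀, i₁, hv]⟩
  refine absurd (hξ _ (Metric.ball_mem_nhds ξ (show 0 < 1 / (4 * C) by positivity)))
    (not_lt.2 (upperDensity_nonpos_of_blocks fun ε hε => ?_))
  have aux : ∀ (i : Fin n) (w : 𝕜 × 𝕜) (k m : ℕ), ‖P (ξ i) - w‖ < 1 / 8 → 1 ≤ ‖gl (g k) w‖ →
      ‖e k (ξ i)‖ < 1 / 4 → m ∈ returnSet (directSum n T) ξ (Metric.ball ξ (1 / (4 * C))) →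
      1 ≤ 4 * ‖e k ((T ^ m) (ξ i)) - gl (g k) (P (ξ i))‖ := by
    intro i w k m h1 h2 h3 h4
    have h5 := he k ((T ^ m) (ξ i) - ξ i)
    have h6 := norm_gl_le (g k) (P (ξ i) - w)
    have h7 := (dist_le_pi_dist _ ξ i).trans_lt h4
    rw [directSum_iterate, dist_eq_norm, lt_div_iff₀ (by positivity)] at h7
    rw [map_sub] at h5 h6
    linarith [norm_sub_norm_le (gl (g k) w) (gl (g k) (P (ξ i))),
      norm_sub_norm_le (gl (g k) (P (ξ i))) (e k ((T ^ m) (ξ i))),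
      norm_sub_norm_le (e k ((T ^ m) (ξ i))) (e k (ξ i)),
      norm_sub_rev (gl (g k) w) (gl (g k) (P (ξ i))),
      norm_sub_rev (gl (g k) (P (ξ i))) (e k ((T ^ m) (ξ i)))]
  filter_upwards [(hθ (ξ i₀)).eventually (gt_mem_nhds (show 0 < ε / 8 by positivity)),
    (hθ (ξ i₁)).eventually (gt_mem_nhds (show 0 < ε / 8 by positivity)),
    (h0 (ξ i₀)).eventually (gt_mem_nhds (show (0 : ℝ) < 1 / 4 by positivity)),
    (h0 (ξ i₁)).eventually (gt_mem_nhds (show (0 : ℝ) < 1 / 4 by positivity))] with k h1 h2 h3 h4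
  refine le_trans ?_ (show 4 * th T P (e k) (g k) k (ξ i₀) + 4 * th T P (e k) (g k) k (ξ i₁) ≤ ε
    by linarith)
  rw [th_apply, th_apply, ← avg_mul, ← avg_mul, ← avg_add]
  refine avg_mono fun m _ _ => Set.indicator_apply_le' (fun hm => ?_) fun _ => by positivity
  rcases one_le_gl (hg k) with h | h
  · exact le_add_of_le_of_nonneg (aux i₀ _ k m hx h h3 hm) (by positivity)
  · exact le_add_of_nonneg_of_le (by positivity) (aux i₁ _ k m hy h h4 hm)

/-! ### the space `l1` -/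

/-- The space `l1` on the index set `I`. -/
abbrev L1 (𝕜 : Type) [RCLike 𝕜] (I : Type) := lp (fun _ : I => 𝕜) 1

variable {I : Type}

open Classical in
/-- The unit vectors. -/
noncomputable def dl (a : I) : L1 𝕜 I := lp.single 1 a 1

@[simp] lemma norm_dl (a : I) : ‖(dl a : L1 𝕜 I)‖ = 1 := by simp [dl]

lemma hasSum_dl (x : L1 𝕜 I) : HasSum (fun a => x a • dl a) x := by
  classical
  convert lp.hasSum_single (by simp) x using 2 with a
  rw [dl, ← lp.single_smul, smul_eq_mul, mul_one]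

lemma l1_hasSum (x : L1 𝕜 I) : HasSum (fun a => ‖x a‖) ‖x‖ := by
  simpa using lp.hasSum_norm (by simp) x

theorem exists_lift [CompleteSpace X] (v : I → X) {C : ℝ} (hC : 0 ≤ C) (h : ∀ a, ‖v a‖ ≤ C) :
    ∃ F : L1 𝕜 I →L[𝕜] X, (∀ a, F (dl a) = v a) ∧ ∀ x, ‖F x‖ ≤ C * ‖x‖ := by
  classical
  have hb : ∀ a, ‖ContinuousLinearMap.toSpanSingleton 𝕜 (v a)‖ ≤ C := fun a => by simpa using h a
  refine ⟨lp.tsumCLM 𝕜 I X ∘L lp.mapCLM 1 _ hC hb, fun a => ?_, fun x =>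
    (lp.norm_tsum_le _).trans ((lp.mapCLM 1 _ hC hb).le_of_opNorm_le (lp.norm_mapCLM_le ..) x)⟩
  change ∑' i, (dl a : L1 𝕜 I) i • v i = v a
  rw [tsum_eq_single a fun b hb => by simp [dl, hb]]
  simp [dl]

lemma l1_lim (p : ℕ → Seminorm 𝕜 (L1 𝕜 I)) (hc : ∀ k, Continuous (p k)) {C : ℝ}
    (hC : ∀ k a, p k (dl a) ≤ C) (h0 : ∀ a, ∀ᶠ k in atTop, p k (dl a) = 0)
    (x : L1 𝕜 I) : Tendsto (fun k => p k x) atTop (𝓝 0) := by
  have hs := (l1_hasSum x).summable.mul_right C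
  have hb : ∀ k a, ‖‖x a‖ * p k (dl a)‖ ≤ ‖x a‖ * C := fun k a => by
    rw [Real.norm_of_nonneg (by positivity)]
    gcongr
    exact hC k a
  have := tendsto_tsum_of_dominated_convergence (𝓕 := atTop) (g := fun _ => (0 : ℝ))
    (f := fun k a => ‖x a‖ * p k (dl a)) hs (fun a => tendsto_const_nhds.congr'
      ((h0 a).mono fun k hk => by simp only [hk, mul_zero])) (.of_forall hb)
  rw [tsum_zero] at this
  refine squeeze_zero (fun k => apply_nonneg _ _) (fun k => le_of_tendsto'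
    (((hc k).tendsto x).comp (hasSum_dl x)) fun s => ?_) this
  refine le_trans (Finset.le_sum_of_subadditive (p k) (map_zero _).le (map_add_le_add _) _ _) ?_
  simp only [map_smul_eq_mul]
  exact (hs.of_norm_bounded (hb k)).sum_le_tsum s fun _ _ => by positivity

theorem compl_l1 [CompleteSpace X] (u : I → X) (φ : I → X →L[𝕜] 𝕜) {C : ℝ} (hC : 0 ≤ C)
    (hu : ∀ a, ‖u a‖ ≤ C) (hφ : ∀ x (s : Finset I), ∑ a ∈ s, ‖φ a x‖ ≤ C * ‖x‖)
    (h1 : ∀ a, φ a (u a) = 1) (h0 : ∀ a b, a ≠ b → φ a (u b) = 0) : Compl 𝕜 X (L1 𝕜 I) := by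
  classical
  obtain ⟨J, hJ, -⟩ := exists_lift (𝕜 := 𝕜) u hC hu
  let Q : X →L[𝕜] L1 𝕜 I := LinearMap.mkContinuous
    { toFun := fun x => ⟨fun a => φ a x, memℓp_gen' (C := C * ‖x‖) (by simpa using hφ x)⟩
      map_add' := fun x y => lp.ext (funext fun a => map_add (φ a) x y)
      map_smul' := fun c x => lp.ext (funext fun a => map_smul (φ a) c x) } C fun x =>
      hasSum_le_of_sum_le (l1_hasSum _) (hφ x)
  refine ⟨J, Q, fun y => (((hasSum_dl y).mapL J).mapL Q).unique ?_⟩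
  convert hasSum_dl y using 2 with b
  rw [map_smul, map_smul, hJ]
  congr 1
  refine lp.ext (funext fun a => ?_)
  change φ a (u b) = _
  rcases eq_or_ne a b with rfl | hab
  · simp [dl, h1]
  · simp [dl, hab, h0 a b hab]

/-! ### the space `c0` -/

section
variable [TopologicalSpace I] [DiscreteTopology I]

/-- A null family as an element of `c0`. -/
def mk0 (f : I → 𝕜) (h : Tendsto f cofinite (𝓝 0)) : C₀(I, 𝕜) :=
  ⟨⟨f, continuous_of_discreteTopology⟩, by rwa [cocompact_eq_cofinite]⟩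

lemma c0_null (f : C₀(I, 𝕜)) : Tendsto f cofinite (𝓝 0) := by
  rw [← cocompact_eq_cofinite]; exact zero_at_infty f

omit [DiscreteTopology I] in
lemma c0_le (f : C₀(I, 𝕜)) (a : I) : ‖f a‖ ≤ ‖f‖ := f.toBCF.norm_coe_le_norm a

omit [DiscreteTopology I] in
lemma c0_norm_le (f : C₀(I, 𝕜)) {M : ℝ} (hM : 0 ≤ M) (h : ∀ a, ‖f a‖ ≤ M) : ‖f‖ ≤ M :=
  (BoundedContinuousFunction.norm_le (f := f.toBCF) hM).2 h

theorem compl_c0 [CompleteSpace X] (u : I → X) (φ : I → X →L[𝕜] 𝕜) {C : ℝ} (hC : 0 < C)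
    (hu : ∀ (s : Finset I) (c : I → 𝕜) (M : ℝ), 0 ≤ M → (∀ a ∈ s, ‖c a‖ ≤ M) →
      ‖∑ a ∈ s, c a • u a‖ ≤ C * M) (hφ : ∀ a x, ‖φ a x‖ ≤ C * ‖x‖)
    (hn : ∀ x, Tendsto (fun a => φ a x) cofinite (𝓝 0))
    (h1 : ∀ a, φ a (u a) = 1) (h0 : ∀ a b, a ≠ b → φ a (u b) = 0) : Compl 𝕜 X C₀(I, 𝕜) := by
  have hs : ∀ f : C₀(I, 𝕜), Summable fun a => f a • u a := fun f =>
    summable_iff_vanishing_norm.2 fun ε hε => by
      have := (NormedAddGroup.tendsto_nhds_zero.1 (c0_null f)) (ε / (2 * C)) (by positivity)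
      refine ⟨this.toFinset, fun t ht => (hu t f (ε / (2 * C)) (by positivity)
        fun a ha => le_of_lt (not_not.1 fun h => Finset.disjoint_left.1 ht ha
          ((Set.Finite.mem_toFinset _).2 h))).trans_lt ?_⟩
      field_simp
      norm_num
  refine ⟨LinearMap.mkContinuous
    { toFun := fun f => ∑' a, f a • u a
      map_add' := fun f g => by simpa [add_smul] using (hs f).tsum_add (hs g)
      map_smul' := fun c f => by simpa [mul_smul] using (hs f).tsum_const_smul c } C fun f =>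
      le_of_tendsto' (hs f).hasSum.norm fun s => hu s f _ (norm_nonneg _) fun a _ => c0_le f a,
    LinearMap.mkContinuous
    { toFun := fun x => mk0 _ (hn x)
      map_add' := fun x y => DFunLike.ext _ _ fun a => map_add (φ a) x y
      map_smul' := fun c x => DFunLike.ext _ _ fun a => map_smul (φ a) c x } C fun x =>
      c0_norm_le _ (by positivity) (hφ · x), fun f => DFunLike.ext _ _ fun a => ?_⟩
  change φ a (∑' b, f b • u b) = f a
  rw [(φ a).map_tsum (hs f), tsum_eq_single a fun b hb => by simp [h0 a b hb.symm]]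
  simp [h1]

end

end Pool.Agent.P.MP_cd1425_an.Cl
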