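import Pool.Agent.P.MP_cd1425_an.Cl.Crit

/-! The theorem of James: a nonreflexive space with an unconditional basis contains a complemented
copy of `l1` or of `c0`. -/

set_option autoImplicit false

open Filter Topology Finset Function
open scoped ZeroAtInfty

namespace Pool.Agent.P.MP_cd1425_an.Cl

variable {𝕜 : Type} [RCLike 𝕜] {X : Type*} [NormedAddCommGroup X] [NormedSpace 𝕜 X]
  [CompleteSpace X] {ι : Type*}

lemma sum_norm_le {I : Type*} (s : Finset I) (w : I → 𝕜) {M : ℝ}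
    (h : ∀ t ⊆ s, ‖∑ i ∈ t, w i‖ ≤ M) : ∑ i ∈ s, ‖w i‖ ≤ 4 * M := by
  have key : ∀ r : 𝕜 →+ ℝ, (∀ z, |r z| ≤ ‖z‖) → ∑ i ∈ s, |r (w i)| ≤ 2 * M := fun r hr => by
    have h1 := abs_le.1 ((hr _).trans (h _ (filter_subset (fun i => 0 ≤ r (w i)) s)))
    have h2 := abs_le.1 ((hr _).trans (h _ (filter_subset (fun i => ¬ 0 ≤ r (w i)) s)))
    rw [map_sum] at h1 h2
    rw [← sum_filter_add_sum_filter_not s fun i => 0 ≤ r (w i),
      sum_congr rfl fun i hi => abs_of_nonneg (mem_filter.1 hi).2,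
      sum_congr rfl fun i hi => abs_of_neg (not_le.1 (mem_filter.1 hi).2), sum_neg_distrib]
    linarith [h1.2, h2.1]
  have h3 : ∑ i ∈ s, ‖w i‖ ≤ ∑ i ∈ s, (|RCLike.re (w i)| + |RCLike.im (w i)|) :=
    sum_le_sum fun i _ => by
      conv_lhs => rw [← RCLike.re_add_im (w i)]
      refine (norm_add_le _ _).trans ?_
      rw [norm_mul, RCLike.norm_ofReal, RCLike.norm_ofReal]
      gcongr
      refine mul_le_of_le_one_right (abs_nonneg _) ?_
      rcases eq_or_ne (RCLike.I : 𝕜) 0 with h | h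
      exacts [by simp [h], (RCLike.norm_I_of_ne_zero h).le]
  rw [sum_add_distrib] at h3
  linarith [key _ RCLike.abs_re_le_norm, key _ RCLike.abs_im_le_norm]

lemma exists_blocks {Q : Finset ι → Prop} (h : ∀ S, ∃ A, Disjoint A S ∧ Q A) (I : Type)
    [Countable I] : ∃ A : I → Finset ι, (∀ a, Q (A a)) ∧ Pairwise (Disjoint on A) := by
  classical
  obtain ⟨A, h1, h2⟩ := exists_seq_of_forall_finset_exists' Q Disjoint fun s _ => by
    obtain ⟨A, h1, h2⟩ := h (s.sup id)
    exact ⟨A, h2, fun x hx => (h1.mono_right (le_sup (f := id) hx)).symm⟩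
  obtain ⟨e, he⟩ := exists_injective_nat I
  exact ⟨A ∘ e, fun a => h1 _, h2.comp_of_injective he⟩

variable (b : UnconditionalSchauderBasis ι 𝕜 X)

lemma exists_block_bound : ∃ C > 0, (∀ A y, ‖b.proj A y‖ ≤ C * ‖y‖) ∧
    ∀ (I : Type) (A : I → Finset ι), Pairwise (Disjoint on A) → ∀ (f : StrongDual 𝕜 X) (y : X)
      (s : Finset I), ∑ a ∈ s, ‖f (b.proj (A a) y)‖ ≤ 4 * (‖f‖ * (C * ‖y‖)) := by
  classical
  obtain ⟨C, hC⟩ := b.exists_norm_proj_le
  have h1 : ∀ A y, ‖b.proj A y‖ ≤ max C 1 * ‖y‖ := fun A y =>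
    (b.proj A).le_of_opNorm_le (le_max_of_le_left (hC A)) y
  refine ⟨_, lt_max_of_lt_right one_pos, h1, fun I A hA f y s => sum_norm_le _ _ fun t _ => ?_⟩
  have : ∑ a ∈ t, f (b.proj (A a) y) = f (b.proj (t.biUnion A) y) := by
    simp only [b.proj_apply, ← map_sum, sum_biUnion fun a _ c _ h => hA h]
  rw [this]
  exact f.le_opNorm_of_le (h1 _ y)

omit [CompleteSpace X] in
lemma dual_sum (Φ : StrongDual 𝕜 (StrongDual 𝕜 X)) (f : StrongDual 𝕜 X) (A : Finset ι) :
    f (∑ i ∈ A, Φ (b.coord i) • b i) = Φ (f ∘L b.proj A) := by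
  have : f ∘L b.proj A = ∑ i ∈ A, f (b i) • b.coord i := by
    ext y
    simp [mul_comm]
  simp [this, mul_comm]

include b in
theorem james (hX : ¬ Surjective (NormedSpace.inclusionInDoubleDual 𝕜 X)) (I J : Type)
    [Countable I] [Countable J] [TopologicalSpace J] [DiscreteTopology J] :
    Compl 𝕜 X (L1 𝕜 I) ∨ Compl 𝕜 X C₀(J, 𝕜) := by
  classical
  obtain ⟨C, hC, h1, h2⟩ := exists_block_bound b
  by_cases hs : ∀ (f : StrongDual 𝕜 X), ∀ ε > 0, ∃ S, ∀ A, Disjoint A S → ∀ x,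
      ‖f (b.proj A x)‖ ≤ ε * ‖x‖
  swap
  · push Not at hs
    obtain ⟨f, ε, hε, h⟩ := hs
    obtain ⟨A, hx, hA⟩ := exists_blocks h I
    choose x hx using hx
    have h0 : ∀ a, 0 < ‖f (b.proj (A a) (x a))‖ := fun a => lt_of_le_of_lt (by positivity) (hx a)
    refine .inl (compl_l1 (fun a => (f (b.proj (A a) (x a)))⁻¹ • b.proj (A a) (x a))
      (fun a => f ∘L b.proj (A a)) (C := C / ε + 4 * (‖f‖ * C)) (by positivity) (fun a => ?_)
      (fun y s => (h2 I A hA f y s).trans ?_) (fun a => ?_) fun a c h => ?_)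
    · refine le_add_of_le_of_nonneg ?_ (by positivity)
      rw [norm_smul, norm_inv, inv_mul_le_iff₀ (h0 a), ← mul_div_assoc, le_div_iff₀ hε]
      nlinarith [hx a, mul_le_mul_of_nonneg_right (h1 (A a) (x a)) hε.le]
    · have : 0 ≤ C / ε * ‖y‖ := by positivity
      linarith
    · rw [map_smul, ContinuousLinearMap.comp_apply, b.proj_comp]
      convert inv_mul_cancel₀ (norm_pos_iff.1 (h0 a))
      simp
    · rw [map_smul, ContinuousLinearMap.comp_apply, b.proj_comp]
      convert smul_zero _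
      rw [show _ ∩ _ = ∅ by convert disjoint_iff_inter_eq_empty.1 (hA h)]
      simp
  obtain ⟨Φ, hΦ⟩ := not_forall.1 hX
  have hns : ¬ Summable fun i => Φ (b.coord i) • b i := fun ⟨x, hx⟩ => hΦ ⟨x, by
    ext f
    refine tendsto_nhds_unique ((f.continuous.tendsto x).comp hx) ?_
    simp only [comp_def, dual_sum]
    refine (Φ.continuous.tendsto f).comp (Metric.tendsto_nhds.2 fun ε hε => ?_)
    obtain ⟨S, hS⟩ := hs f (ε / 2) (half_pos hε)
    refine (eventually_ge_atTop S).mono fun A hA => ?_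
    rw [dist_eq_norm']
    refine (ContinuousLinearMap.opNorm_le_bound _ (half_pos hε).le fun y => ?_).trans_lt
      (half_lt_self hε)
    refine le_of_tendsto (((f.continuous.tendsto y).comp (b.tendsto_proj y)).sub_const
      (f (b.proj A y))).norm ((eventually_ge_atTop A).mono fun B hB => ?_)
    refine le_of_eq_of_le ?_ (hS (B \ A) (sdiff_disjoint.mono_right hA) y)
    simp only [comp_apply, b.proj_apply, ← map_sub, sum_sdiff_eq_sub hB]⟩
  rw [summable_iff_vanishing_norm] at hns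
  push Not at hns
  obtain ⟨ε, hε, h⟩ := hns
  obtain ⟨A, hu, hA⟩ := exists_blocks h J
  set u : J → X := fun a => ∑ i ∈ A a, Φ (b.coord i) • b i with hu'
  choose g g1 g2 using fun a => exists_dual_vector'' 𝕜 (u a)
  have h3 : ∀ a y, ‖((‖u a‖ : 𝕜)⁻¹ • g a ∘L b.proj (A a)) y‖ ≤ ‖b.proj (A a) y‖ / ε := fun a y => by
    rw [_root_.smul_apply, norm_smul, norm_inv, RCLike.norm_ofReal, abs_norm,
      ← div_eq_inv_mul]
    gcongr
    exacts [((g a).le_of_opNorm_le (g1 a) _).trans_eq (one_mul _), hu a]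
  have h4 : ∀ a c, b.proj (A a) (u c) = ∑ i ∈ A c, if i ∈ A a then Φ (b.coord i) • b i else 0 :=
    fun a c => by simp [hu', b.ortho, Pi.single_apply]
  refine .inr (compl_c0 u (fun a => (‖u a‖ : 𝕜)⁻¹ • g a ∘L b.proj (A a))
    (C := C / ε + 4 * (‖Φ‖ * C)) (by positivity) (fun s c M hM hc => ?_)
    (fun a y => (h3 a y).trans ?_) (fun y => ?_) (fun a => ?_) fun a c h => ?_)
  · refine NormedSpace.norm_le_dual_bound 𝕜 _ (by positivity) fun f => ?_
    have e : f (∑ a ∈ s, c a • u a) = Φ (∑ a ∈ s, c a • f ∘L b.proj (A a)) := by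
      rw [map_sum, map_sum]
      simp only [map_smul, hu', dual_sum]
    have := ContinuousLinearMap.opNorm_le_bound (∑ a ∈ s, c a • f ∘L b.proj (A a))
      (M := M * (4 * (‖f‖ * C))) (by positivity) fun y => by
        refine le_trans ?_ ((mul_le_mul_of_nonneg_left (h2 J A hA f y s) hM).trans_eq (by ring))
        rw [_root_.sum_apply, mul_sum]
        refine norm_sum_le_of_le _ fun a ha => (norm_smul_le (c a) (f (b.proj (A a) y))).trans ?_
        gcongr
        exact hc a ha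
    have h0 : 0 ≤ C / ε * M * ‖f‖ := by positivity
    rw [e]
    exact (Φ.le_opNorm_of_le this).trans (by linarith)
  · rw [add_mul, div_mul_eq_mul_div]
    exact le_add_of_le_of_nonneg (by gcongr; exact h1 _ y) (by positivity)
  · refine NormedAddGroup.tendsto_nhds_zero.2 fun δ hδ => ?_
    obtain ⟨S, hS⟩ := summable_iff_vanishing_norm.1 (b.expansion y).summable _ (mul_pos hδ hε)
    refine (S.finite_toSet.biUnion fun i _ => Set.Subsingleton.finite
      (s := {a | i ∈ A a}) fun a ha c hc => ?_).subset fun a ha => ?_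
    · exact not_not.1 fun h => disjoint_left.1 (hA h) ha hc
    · obtain ⟨i, i1, i2⟩ := not_disjoint_iff.1 fun h => ha ((h3 a y).trans_lt (by
        rw [div_lt_iff₀ hε, b.proj_apply]; exact hS _ h))
      exact Set.mem_biUnion i2 i1
  · rw [_root_.smul_apply, ContinuousLinearMap.comp_apply, h4,
      sum_congr rfl fun i hi => if_pos hi, g2]
    exact inv_mul_cancel₀ (mod_cast (hε.trans_le (hu a)).ne')
  · rw [_root_.smul_apply, ContinuousLinearMap.comp_apply, h4,
      sum_eq_zero fun i hi => if_neg (disjoint_right.1 (hA h) hi), map_zero, smul_zero]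

end Pool.Agent.P.MP_cd1425_an.Cl
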