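import Pool.Agent.P.MP_cd1425_an.Cl.Crit

/-! The counterexample on `l1`: the data and the orbits. -/

set_option autoImplicit false

open Filter Topology Finset Finsupp

namespace Pool.Agent.P.MP_cd1425_an.Cl

/-- Symbols for the points of the orbits. -/
abbrev E1 := (ℕ × Bool) ⊕ ℕ × ℕ

/-- The index set. -/
abbrev I1 := (ℕ × Bool) ⊕ {p : ℕ × ℕ // p.2 < 4 ^ (p.1 + 1)}

variable (𝕜 : Type) [RCLike 𝕜]

lemma exists_us : ∃ us : ℕ → E1 →₀ 𝕜, ∀ (Λ : (E1 →₀ 𝕜) →ₗ[𝕜] L1 𝕜 I1) (v : E1 →₀ 𝕜) (ε : ℝ),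
    0 < ε → ∀ N, ∃ i, N ≤ i ∧ dist (Λ v) (Λ (us i)) < ε := by
  obtain ⟨d, hd⟩ := TopologicalSpace.exists_dense_seq 𝕜
  obtain ⟨e, he⟩ := exists_surjective_nat (E1 × ℕ →₀ ℕ)
  let φ : (E1 × ℕ →₀ ℕ) →ₗ[ℕ] E1 →₀ 𝕜 := linearCombination ℕ fun p => single p.1 (d p.2)
  refine ⟨fun i => φ (e i.unpair.1), fun Λ v ε hε N => ?_⟩
  have : Λ v ∈ closure (Set.range fun w => Λ (φ w)) := by
    induction v using Finsupp.induction_linear with
    | zero => exact subset_closure ⟨0, by simp⟩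
    | add u v hu hv =>
      rw [map_add]
      refine map_mem_closure₂ continuous_add hu hv ?_
      rintro _ ⟨w, rfl⟩ _ ⟨w', rfl⟩
      exact ⟨w + w', by simp⟩
    | single b c =>
      rw [← smul_single_one, map_smul]
      refine map_mem_closure (f := fun c : 𝕜 => c • Λ (single b 1)) (by fun_prop) (hd c) ?_
      rintro _ ⟨j, rfl⟩
      exact ⟨single (b, j) 1, by simp [φ, ← map_smul]⟩
  obtain ⟨_, ⟨w, rfl⟩, h⟩ := Metric.mem_closure_iff.1 this ε hε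
  obtain ⟨a, rfl⟩ := he w
  exact ⟨a.pair N, Nat.right_le_pair _ _, by simpa using h⟩

/-- The targets. -/
noncomputable def us : ℕ → E1 →₀ 𝕜 := (exists_us 𝕜).choose

/-- The level of a scale. -/
noncomputable def lv (K : ℕ) : ℕ := min K (Nat.log 4 ((tag K).2 / 3))

variable {𝕜} in
/-- Vectors below the level `l`. -/
def Low (l : ℕ) (u : E1 →₀ 𝕜) : Prop := ∀ b ∈ u.support, Sum.elim Prod.fst Prod.fst b < l

/-- Active scales. -/
structure Act (K : ℕ) : Prop where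
  m3 : 3 ≤ (tag K).2
  mK : (tag K).2 + 2 ≤ K
  iK : (tag K).1 ≤ K
  low : Low (lv K) (us 𝕜 (tag K).1)
  sum : ∑ b ∈ (us 𝕜 (tag K).1).support, ‖us 𝕜 (tag K).1 b‖ ≤ lv K

/-- The windows. -/
structure Win (K s : ℕ) : Prop where
  act : Act 𝕜 K
  lo : 2 * 4 ^ K ≤ s
  hi : s < 3 * 4 ^ K
  md : s % 4 ^ ((tag K).2 + 2) ≤ (tag K).2

open Classical in
/-- The exponents of the weights. -/
noncomputable def ex (K s : ℕ) : ℕ := min (4 ^ lv K + K)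
  (if Win 𝕜 K s then s % 4 ^ ((tag K).2 + 2) + (K - lv K) else 4 * s - 3 * 4 ^ K)

/-- The weights. -/
noncomputable def wt (K s : ℕ) : 𝕜 := ((2 ^ ex 𝕜 K s / 2 ^ K : ℝ) : 𝕜)

open Classical in
/-- The corrected targets. -/
noncomputable def UU (i : ℕ) : ℕ → E1 →₀ 𝕜
  | 0 => us 𝕜 i
  | N + 1 => UU i N + if Act 𝕜 N ∧ (tag N).1 = i then single (.inr (N, 0)) 1 else 0

/-- The target of the scale `K`. -/
noncomputable def uK (K : ℕ) : E1 →₀ 𝕜 := UU 𝕜 (tag K).1 (lv K)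

/-- The new directions. -/
noncomputable def dd (K s : ℕ) : L1 𝕜 I1 :=
  if h : s < 4 ^ (K + 1) then wt 𝕜 K s • dl (.inr ⟨(K, s), h⟩) else 0

variable {𝕜}

/-- The orbits of the symbols. -/
noncomputable def eO (H : ℕ → ℕ → L1 𝕜 I1) (r : ℕ) : E1 → L1 𝕜 I1 :=
  Sum.elim (fun p => dl (.inl (p.1 + r, p.2))) fun p => H p.1 (p.2 + r)

open Classical in
/-- The corrections. -/
noncomputable def WH (H : ℕ → ℕ → L1 𝕜 I1) (K s r : ℕ) : L1 𝕜 I1 :=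
  if Win 𝕜 K s then linearCombination 𝕜 (eO H (s % 4 ^ ((tag K).2 + 2) + r)) (uK 𝕜 K) -
    linearCombination 𝕜 (eO H (s + r)) (uK 𝕜 K) else 0

variable (𝕜) in
/-- The orbits of the perturbations. -/
noncomputable def hh (K s : ℕ) : L1 𝕜 I1 :=
  dd 𝕜 K s + WH (fun K' s' => if K' < K then hh K' s' else 0) K s 0
termination_by K

variable (𝕜) in
/-- The orbit of a finite combination of symbols. -/
noncomputable abbrev OO (r : ℕ) : (E1 →₀ 𝕜) →ₗ[𝕜] L1 𝕜 I1 := linearCombination 𝕜 (eO (hh 𝕜) r)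

variable {K s l n r k : ℕ} {u : E1 →₀ 𝕜}

lemma lt_four (n : ℕ) : n < 4 ^ n := Nat.lt_pow_self (by norm_num)

lemma four_le (h : n ≤ k) : 4 ^ n ≤ 4 ^ k := Nat.pow_le_pow_right (by norm_num) h

lemma lv_le (K : ℕ) : lv K ≤ K := min_le_left _ _

lemma Act.lv (h : Act 𝕜 K) : 3 * 4 ^ lv K ≤ (tag K).2 := by
  have h1 := four_le (n := Cl.lv K) (min_le_right _ _)
  have h2 := Nat.pow_log_le_self 4 (show (tag K).2 / 3 ≠ 0 by have := h.m3; omega)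
  omega

lemma mod_add {M : ℕ} (h : s % M + n < M) : (s + n) % M = s % M + n := by
  rw [← Nat.mod_add_mod, Nat.mod_eq_of_lt h]

lemma Win.add (h : Win 𝕜 K s) (hn : s % 4 ^ ((tag K).2 + 2) + n ≤ (tag K).2) :
    Win 𝕜 K (s + n) ∧ (s + n) % 4 ^ ((tag K).2 + 2) = s % 4 ^ ((tag K).2 + 2) + n := by
  have h1 := lt_four ((tag K).2 + 2)
  have h2 := mod_add (s := s) (n := n) (M := 4 ^ ((tag K).2 + 2)) (by omega)
  refine ⟨⟨h.act, h.lo.trans (Nat.le_add_right _ _), ?_, h2.trans_le hn⟩, h2⟩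
  obtain ⟨c, hc⟩ := (pow_dvd_pow 4 h.act.mK).mul_left 3
  have h3 := h.hi
  rw [hc] at h3 ⊢
  have h4 := Nat.mul_le_mul_left (4 ^ ((tag K).2 + 2)) (Nat.succ_le_of_lt (Nat.div_lt_of_lt_mul h3))
  have h5 := Nat.div_add_mod s (4 ^ ((tag K).2 + 2))
  rw [Nat.mul_succ] at h4
  omega

lemma low_UU {i N : ℕ} (h : Low l (us 𝕜 i)) (hN : N ≤ l) : Low l (UU 𝕜 i N) := by
  classical
  induction N with
  | zero => exact h
  | succ N ih =>
    intro b hb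
    rcases mem_union.1 (support_add hb) with c | c
    · exact ih (by omega) b c
    · split_ifs at c
      · rw [mem_singleton.1 (support_single_subset c)]
        exact hN
      · simp at c

lemma Act.low_uK (h : Act 𝕜 K) : Low (Cl.lv K) (uK 𝕜 K) := low_UU h.low le_rfl

lemma Low.map {Y Z : Type*} [AddCommGroup Y] [Module 𝕜 Y] [AddCommGroup Z] [Module 𝕜 Z]
    (h : Low l u) {G : Type*} [FunLike G Y Z] [LinearMapClass G 𝕜 Y Z] (F : G) {v : E1 → Y}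
    {w : E1 → Z} (h1 : ∀ t β, t < l → F (v (.inl (t, β))) = w (.inl (t, β)))
    (h2 : ∀ K s, K < l → F (v (.inr (K, s))) = w (.inr (K, s))) :
    F (linearCombination 𝕜 v u) = linearCombination 𝕜 w u := by
  simp only [linearCombination_apply, Finsupp.sum, map_sum, map_smul]
  refine sum_congr rfl fun b hb => congrArg _ ?_
  have := h b hb
  rcases b with p | p
  exacts [h1 _ _ this, h2 _ _ this]

lemma hh_eq (K s : ℕ) : hh 𝕜 K s = dd 𝕜 K s + WH (hh 𝕜) K s 0 := by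
  rw [hh, WH, WH]
  split_ifs with h
  · congr 2 <;> exact h.act.low_uK.map (LinearMap.id (R := 𝕜)) (fun _ _ _ => rfl)
      fun K' s' c => if_pos (c.trans_le (lv_le K))
  · rfl

lemma WH_of (h : Win 𝕜 K s) (r : ℕ) : WH (hh 𝕜) K s r =
    OO 𝕜 (s % 4 ^ ((tag K).2 + 2) + r) (uK 𝕜 K) - OO 𝕜 (s + r) (uK 𝕜 K) := if_pos h

lemma WH_not (h : ¬ Win 𝕜 K s) (r : ℕ) : WH (hh 𝕜) K s r = 0 := if_neg h

lemma hh_not (h : ¬ Win 𝕜 K s) : hh 𝕜 K s = dd 𝕜 K s := by rw [hh_eq, WH_not h, add_zero]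

lemma hh_dead (h : 4 ^ (K + 1) ≤ s) : hh 𝕜 K s = 0 := by
  rw [hh_not fun c => by have := c.hi; omega, dd, dif_neg (by omega)]

lemma norm_wt (K s : ℕ) : ‖wt 𝕜 K s‖ = 2 ^ ex 𝕜 K s / 2 ^ K := RCLike.norm_of_nonneg (by positivity)

lemma wt_ne (K s : ℕ) : wt 𝕜 K s ≠ 0 := norm_pos_iff.1 (by rw [norm_wt]; positivity)

lemma norm_dd (K s : ℕ) {e : ℕ} (h : ex 𝕜 K s ≤ e) : ‖dd 𝕜 K s‖ ≤ 2 ^ e / 2 ^ K := by
  unfold dd
  split_ifs
  · rw [norm_smul, norm_dl, mul_one, norm_wt]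
    gcongr
    norm_num
  · rw [norm_zero]; positivity

lemma OO_succ (r i N : ℕ) : OO 𝕜 r (UU 𝕜 i (N + 1)) = OO 𝕜 r (UU 𝕜 i N) ∨
    OO 𝕜 r (UU 𝕜 i (N + 1)) = OO 𝕜 r (UU 𝕜 i N) + hh 𝕜 N r := by
  rw [UU]
  split_ifs <;> simp [eO]

lemma norm_OO (h : Act 𝕜 K) (ih : ∀ K' < K, ∀ s, ‖hh 𝕜 K' s‖ ≤ 3 * 2 ^ 4 ^ lv K') (r : ℕ) :
    ‖OO 𝕜 r (uK 𝕜 K)‖ ≤ 2 ^ 4 ^ lv K := by
  obtain ⟨B, hB, h1, h2⟩ : ∃ B : ℝ, 2 * lv K * B ≤ 2 ^ 4 ^ lv K ∧ 1 ≤ B ∧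
      ∀ K' < lv K, ∀ s, ‖hh 𝕜 K' s‖ ≤ B := by
    refine ⟨3 * 2 ^ 4 ^ (lv K - 1), ?_, by
      linarith [one_le_pow₀ (n := 4 ^ (lv K - 1)) (one_le_two (α := ℝ))],
      fun K' c s => (ih K' (c.trans_le (lv_le K)) s).trans ?_⟩
    · rcases lv K with _ | l
      · simp
      · have h1 := Nat.mul_le_mul_right (2 ^ 4 ^ l) (Nat.lt_two_pow_self (n := l))
        have h2 := Nat.pow_le_pow_right two_pos
          (show l + 4 ^ l + 3 ≤ 4 ^ (l + 1) by have := lt_four l; omega)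
        rw [pow_add, pow_add] at h2
        exact_mod_cast (show 2 * (l + 1) * (3 * 2 ^ 4 ^ l) ≤ 2 ^ 4 ^ (l + 1) by
          nlinarith [Nat.zero_le (2 ^ l * 2 ^ 4 ^ l)])
    · have := lv_le K'
      gcongr <;> first | omega | norm_num
  have key : ∀ N ≤ lv K, ‖OO 𝕜 r (UU 𝕜 (tag K).1 N)‖ ≤ (lv K + N) * B := fun N hN => by
    induction N with
    | zero =>
      rw [linearCombination_apply, Nat.cast_zero, add_zero]
      refine (norm_sum_le_of_le _ fun b hb => ?_).trans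
        ((Finset.sum_mul ..).ge.trans (mul_le_mul_of_nonneg_right h.sum (by linarith)))
      rw [norm_smul]
      refine mul_le_mul_of_nonneg_left ?_ (norm_nonneg _)
      have := h.low b hb
      rcases b with p | p
      exacts [(norm_dl _).trans_le h1, h2 _ this _]
    | succ N ih =>
      have := ih (by omega)
      push_cast
      rcases OO_succ (𝕜 := 𝕜) r (tag K).1 N with e | e <;> rw [e]
      · linarith
      · linarith [norm_add_le (OO 𝕜 r (UU 𝕜 (tag K).1 N)) (hh 𝕜 N r), h2 N hN r]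
  exact (key _ le_rfl).trans (by linarith)

lemma norm_WH' (ih : ∀ K' < K, ∀ s, ‖hh 𝕜 K' s‖ ≤ 3 * 2 ^ 4 ^ lv K') (s r : ℕ) :
    ‖WH (hh 𝕜) K s r‖ ≤ 2 * 2 ^ 4 ^ lv K := by
  by_cases h : Win 𝕜 K s
  · rw [WH_of h, two_mul]
    exact norm_sub_le_of_le (norm_OO h.act ih _) (norm_OO h.act ih _)
  · rw [WH_not h, norm_zero]; positivity

lemma norm_hh (K s : ℕ) : ‖hh 𝕜 K s‖ ≤ 3 * 2 ^ 4 ^ lv K := by
  induction K using Nat.strong_induction_on generalizing s with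
  | _ K ih =>
    have := norm_dd (𝕜 := 𝕜) K s (min_le_left _ _)
    rw [pow_add, mul_div_cancel_right₀ _ (by positivity)] at this
    rw [hh_eq]
    linarith [norm_add_le (dd 𝕜 K s) (WH (hh 𝕜) K s 0), norm_WH' ih s 0]

variable (𝕜) in
/-- The orbits of the new directions. -/
noncomputable def ZZ (K s n : ℕ) : L1 𝕜 I1 := hh 𝕜 K (s + n) - WH (hh 𝕜) K s n

lemma norm_ZZ (K s n : ℕ) : ‖ZZ 𝕜 K s n‖ ≤ 5 * 2 ^ 4 ^ lv K := by
  exact (norm_sub_le_of_le (norm_hh K (s + n)) (norm_WH' (fun K' _ => norm_hh K') s n)).trans_eq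
    (by ring)

lemma ZZ_win (h : Win 𝕜 K s) (hn : s % 4 ^ ((tag K).2 + 2) + n ≤ (tag K).2) :
    ZZ 𝕜 K s n = dd 𝕜 K (s + n) := by
  rw [ZZ, hh_eq, WH_of h, WH_of (h.add hn).1, (h.add hn).2]
  exact add_sub_cancel_right _ _

lemma ZZ_not (h : ¬ Win 𝕜 K s) : ZZ 𝕜 K s n = hh 𝕜 K (s + n) := by rw [ZZ, WH_not h, sub_zero]

lemma ex_win (h : Win 𝕜 K s) (c : ex 𝕜 K s < 4 ^ lv K + K) :
    s % 4 ^ ((tag K).2 + 2) < 4 ^ lv K + lv K ∧ K - lv K ≤ ex 𝕜 K s := by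
  have := lv_le K
  rw [ex, if_pos h] at c ⊢
  omega

lemma ex_not (h : ¬ Win 𝕜 K s) (c : ex 𝕜 K s < 4 ^ lv K + K) (hn : n ≤ 4 ^ K) :
    ¬ Win 𝕜 K (s + n) := fun w => by
  rw [ex, if_neg h] at c
  have h1 := w.act.lv
  have h2 := w.act.mK
  have h3 := w.lo
  have h4 := lt_four (K - 1)
  have h5 : 4 ^ K = 4 ^ (K - 1) * 4 := by rw [← pow_succ]; congr 1; omega
  omega

lemma norm_inv_wt {x : L1 𝕜 I1} {C : ℝ} (h : ‖x‖ ≤ C * (2 ^ ex 𝕜 K s / 2 ^ K)) :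
    ‖(wt 𝕜 K s)⁻¹ • x‖ ≤ C := by
  rwa [norm_smul, norm_inv, norm_wt, inv_mul_le_iff₀' (by positivity)]

lemma ZZ_max (c : ¬ ex 𝕜 K s < 4 ^ lv K + K) (n : ℕ) : ‖(wt 𝕜 K s)⁻¹ • ZZ 𝕜 K s n‖ ≤ 5 := by
  refine norm_inv_wt ?_
  rw [le_antisymm (a := ex 𝕜 K s) (min_le_left _ _) (not_lt.1 c), pow_add,
    mul_div_cancel_right₀ _ (by positivity)]
  exact norm_ZZ K s n

lemma ZZ_one (K s : ℕ) : ‖(wt 𝕜 K s)⁻¹ • ZZ 𝕜 K s 1‖ ≤ 16 := by
  by_cases c : ex 𝕜 K s < 4 ^ lv K + K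
  · have : ZZ 𝕜 K s 1 = dd 𝕜 K (s + 1) ∧ ex 𝕜 K (s + 1) ≤ ex 𝕜 K s + 4 := by
      by_cases h : Win 𝕜 K s
      · have h1 : s % 4 ^ ((tag K).2 + 2) + 1 ≤ (tag K).2 := by
          have := (ex_win h c).1
          have := h.act.lv
          have := lt_four (lv K)
          omega
        refine ⟨ZZ_win h h1, ?_⟩
        rw [ex, ex, if_pos h, if_pos (h.add h1).1, (h.add h1).2]
        omega
      · have h1 := ex_not h c (Nat.one_le_pow K 4 (by norm_num))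
        refine ⟨by rw [ZZ_not h, hh_not h1], ?_⟩
        rw [ex, ex, if_neg h, if_neg h1]
        omega
    refine norm_inv_wt ?_
    rw [this.1]
    exact (norm_dd K _ this.2).trans_eq (by ring)
  · exact (ZZ_max c 1).trans (by norm_num)

end Pool.Agent.P.MP_cd1425_an.Cl
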