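import Pool.Agent.P.MP_cd1425_an.Cl.L1a

/-! The counterexample on `l1`: the operator. -/

set_option autoImplicit false

open Filter Topology Finset Finsupp

namespace Pool.Agent.P.MP_cd1425_an.Cl

variable {𝕜 : Type} [RCLike 𝕜]

/-- The basis of the plane. -/
def bv (β : Bool) : 𝕜 × 𝕜 := if β then (0, 1) else (1, 0)

lemma norm_bv (β : Bool) : ‖(bv β : 𝕜 × 𝕜)‖ ≤ 1 := by cases β <;> simp [bv]

/-- The total masses. -/
noncomputable def PV : (E1 →₀ 𝕜) →ₗ[𝕜] 𝕜 × 𝕜 :=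
  linearCombination 𝕜 (Sum.elim (fun p => bv p.2) fun _ => 0)

variable (𝕜) in
open Classical in
/-- The direction killed at the scale `k`. -/
noncomputable def gg (k : ℕ) : 𝕜 × 𝕜 := if PV (uK 𝕜 k) = 0 then (1, 0) else PV (uK 𝕜 k)

lemma gg_ne (k : ℕ) : gg 𝕜 k ≠ 0 := by
  unfold gg
  split_ifs with h
  exacts [by simp, h]

lemma gl_gg (k : ℕ) : gl (gg 𝕜 k) (PV (uK 𝕜 k)) = 0 := by
  unfold gg
  split_ifs with h
  exacts [by rw [h, map_zero], gl_self _]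

/-- The operator and the functionals. -/
structure Ops (T : L1 𝕜 I1 →L[𝕜] L1 𝕜 I1) (e : ℕ → L1 𝕜 I1 →L[𝕜] 𝕜) : Prop where
  T1 : ∀ t β, T (dl (.inl (t, β))) = dl (.inl (t + 1, β))
  T2 : ∀ K s h, T (dl (.inr ⟨(K, s), h⟩)) = (wt 𝕜 K s)⁻¹ • ZZ 𝕜 K s 1
  e1 : ∀ k t β, e k (dl (.inl (t, β))) = if 4 ^ k ≤ t then gl (gg 𝕜 k) (bv β) else 0
  e2 : ∀ k p, e k (dl (.inr p)) = 0
  e3 : ∀ k x, ‖e k x‖ ≤ 2 * ‖x‖

variable {T : L1 𝕜 I1 →L[𝕜] L1 𝕜 I1} {e : ℕ → L1 𝕜 I1 →L[𝕜] 𝕜} {K s l n r k : ℕ} {u : E1 →₀ 𝕜}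

lemma exists_low (u : E1 →₀ 𝕜) : ∀ᶠ l in atTop, Low l u :=
  (eventually_all_finset _).2 fun _ _ => eventually_gt_atTop _

lemma dl_eq (h : s < 4 ^ (K + 1)) : dl (.inr ⟨(K, s), h⟩) = (wt 𝕜 K s)⁻¹ • ZZ 𝕜 K s 0 := by
  rw [ZZ, add_zero, hh_eq, add_sub_cancel_right, dd, dif_pos h, inv_smul_smul₀ (wt_ne K s)]

lemma hh_small (h : 4 * r ≤ 3 * 4 ^ K) : ‖hh 𝕜 K r‖ ≤ (1 / 2) ^ K := by
  have h1 : ¬ Win 𝕜 K r := fun c => by
    have := c.lo
    have := lt_four K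
    omega
  rw [hh_not h1, one_div_pow]
  exact (norm_dd K r (e := 0) (by rw [ex, if_neg h1]; omega)).trans_eq (by rw [pow_zero])

lemma UU_tail {i N M : ℕ} (hN : N ≤ M) (h : ∀ K, N ≤ K → K < M → ‖hh 𝕜 K r‖ ≤ (1 / 2) ^ K) :
    ‖OO 𝕜 r (UU 𝕜 i M) - OO 𝕜 r (UU 𝕜 i N)‖ ≤ 2 * (1 / 2) ^ N := by
  suffices ‖OO 𝕜 r (UU 𝕜 i M) - OO 𝕜 r (UU 𝕜 i N)‖ ≤ 2 * (1 / 2) ^ N - 2 * (1 / 2) ^ M from
    this.trans (sub_le_self _ (by positivity))
  induction M, hN using Nat.le_induction with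
  | base => simp
  | succ M hM ih =>
    have := ih fun K h1 h2 => h K h1 (by omega)
    have h0 : (0 : ℝ) ≤ (1 / 2) ^ M := by positivity
    rcases OO_succ (𝕜 := 𝕜) r i M with c | c <;> rw [c, pow_succ]
    · linarith
    · rw [add_sub_right_comm]
      linarith [norm_add_le (OO 𝕜 r (UU 𝕜 i M) - OO 𝕜 r (UU 𝕜 i N)) (hh 𝕜 M r), h M hM M.lt_succ_self]

lemma UU_low {i N : ℕ} (h : N ≤ i) : UU 𝕜 i N = us 𝕜 i := by
  induction N with
  | zero => rfl
  | succ N ih => rw [UU, ih (by omega), if_neg fun c => by have := c.1.iK; omega, add_zero]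

lemma dense_OO : DenseRange (OO 𝕜 0) := by
  have h1 : ∀ r u, OO 𝕜 r u ∈ LinearMap.range (OO 𝕜 0) := fun r u =>
    Submodule.sum_mem _ fun b _ => Submodule.smul_mem _ _ (by
      rcases b with p | p
      exacts [⟨single (.inl (p.1 + r, p.2)) 1, by simp [eO]⟩,
        ⟨single (.inr (p.1, p.2 + r)) 1, by simp [eO]⟩])
  refine fun x => mem_closure_of_tendsto (hasSum_dl x) (.of_forall fun s =>
    (LinearMap.range (OO 𝕜 0)).sum_mem fun a _ => Submodule.smul_mem _ _ ?_)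
  rcases a with p | ⟨⟨K, s⟩, h⟩
  · exact ⟨single (.inl p) 1, by simp [eO]⟩
  · rw [dl_eq]
    refine Submodule.smul_mem _ _ (sub_mem ⟨single (.inr (K, s)) 1, by simp [eO]⟩ ?_)
    by_cases c : Win 𝕜 K s
    · rw [WH_of c]; exact sub_mem (h1 ..) (h1 ..)
    · rw [WH_not c]; exact zero_mem _

namespace Ops

variable (H : Ops T e)
include H

lemma T_WH (ih : ∀ K' < K, ∀ s, T (hh 𝕜 K' s) = hh 𝕜 K' (s + 1)) (s r : ℕ) :
    T (WH (hh 𝕜) K s r) = WH (hh 𝕜) K s (r + 1) := by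
  by_cases h : Win 𝕜 K s
  · rw [WH_of h, WH_of h, map_sub]
    congr 1 <;> exact h.act.low_uK.map T (fun _ _ _ => H.T1 ..)
      fun K' _ c => ih K' (c.trans_le (lv_le K)) _
  · rw [WH_not h, WH_not h, map_zero]

lemma T_hh (K s : ℕ) : T (hh 𝕜 K s) = hh 𝕜 K (s + 1) := by
  induction K using Nat.strong_induction_on generalizing s with
  | _ K ih =>
    rcases lt_or_ge s (4 ^ (K + 1)) with h | h
    · rw [hh_eq, map_add, H.T_WH ih, dd, dif_pos h, map_smul, H.T2, smul_inv_smul₀ (wt_ne K s),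
        ZZ, sub_add_cancel]
    · rw [hh_dead h, hh_dead (by omega), map_zero]

lemma pow_OO (u : E1 →₀ 𝕜) (n : ℕ) : (T ^ n) (OO 𝕜 0 u) = OO 𝕜 n u := by
  induction n with
  | zero => rfl
  | succ n ih =>
    rw [pow_succ', mul_apply_eq_comp, ih]
    exact (exists_low u).exists.choose_spec.map T (fun _ _ _ => H.T1 ..) fun _ _ _ => H.T_hh ..

lemma pow_inl (t : ℕ) (β : Bool) (n : ℕ) : (T ^ n) (dl (.inl (t, β))) = dl (.inl (t + n, β)) := by
  simpa [eO] using H.pow_OO (single (.inl (t, β)) 1) n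

lemma pow_inr (h : s < 4 ^ (K + 1)) (n : ℕ) :
    (T ^ n) (dl (.inr ⟨(K, s), h⟩)) = (wt 𝕜 K s)⁻¹ • ZZ 𝕜 K s n := by
  induction n with
  | zero => exact dl_eq h
  | succ n ih =>
    rw [pow_succ', mul_apply_eq_comp, ih, map_smul, ZZ, map_sub, H.T_hh,
      H.T_WH fun _ _ => H.T_hh _]
    rfl

lemma e_dd (k K s : ℕ) : e k (dd 𝕜 K s) = 0 := by
  unfold dd
  split_ifs <;> simp [H.e2]

lemma e_OO (h : Low l u) (ih : ∀ K < l, ∀ s, e k (hh 𝕜 K s) = 0) (hr : l + r ≤ 4 ^ k) :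
    e k (OO 𝕜 r u) = 0 :=
  (h.map (e k) (w := fun _ => 0) (fun _ _ c => (H.e1 ..).trans (if_neg (by omega)))
    fun _ _ c => ih _ c _).trans (by simp [linearCombination_apply])

lemma e_low (h : K + 2 ≤ k) (s : ℕ) : e k (hh 𝕜 K s) = 0 := by
  induction K using Nat.strong_induction_on generalizing s with
  | _ K ih =>
    by_cases c : Win 𝕜 K s
    · have h1 := lv_le K
      have h2 := four_le h
      have h3 := lt_four K
      have h0 : 4 ^ (K + 2) = 4 ^ K * 16 := by ring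
      have h4 := c.hi
      have h5 := Nat.mod_le s (4 ^ ((tag K).2 + 2))
      have h6 := fun K' (c : K' < lv K) => ih K' (by omega) (by omega)
      rw [hh_eq, map_add, H.e_dd, WH_of c, map_sub, H.e_OO c.act.low_uK h6 (by omega),
        H.e_OO c.act.low_uK h6 (by omega), sub_self, add_zero]
    · rw [hh_not c, H.e_dd]

lemma e_far (h : Low l u) (h1 : 4 ^ l ≤ r) (h2 : 4 ^ k ≤ r) :
    e k (OO 𝕜 r u) = gl (gg 𝕜 k) (PV u) :=
  (h.map (e k) (w := fun b => gl (gg 𝕜 k) (Sum.elim (fun p => bv p.2) (fun _ => 0) b))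
    (fun _ _ _ => (H.e1 ..).trans (if_pos (by omega))) fun K s c => by
    have := four_le (Nat.succ_le_of_lt c)
    exact (congrArg (e k) (hh_dead (K := K) (s := s + r) (by omega))).trans
      ((map_zero _).trans (map_zero _).symm)).trans
    (h.map (gl (gg 𝕜 k)) (fun _ _ _ => rfl) fun _ _ _ => rfl).symm

lemma e_self (K s : ℕ) : e K (hh 𝕜 K s) = 0 := by
  by_cases c : Win 𝕜 K s
  · have h1 := four_le (lv_le K)
    have h2 := c.act.lv
    have h3 := lt_four (lv K)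
    have h4 := c.act.mK
    have h5 := c.md
    have h6 := c.lo
    have h7 := lt_four (K - 1)
    have h8 : 4 ^ K = 4 ^ (K - 1) * 4 := by rw [← pow_succ]; congr 1; omega
    rw [hh_eq, map_add, H.e_dd, WH_of c, map_sub, H.e_OO c.act.low_uK
      (fun K' _ => H.e_low (by omega)) (by omega), H.e_far c.act.low_uK (by omega) (by omega),
      gl_gg, sub_self, add_zero]
  · rw [hh_not c, H.e_dd]

lemma e_WH (h1 : 4 ^ lv K ≤ n) (h2 : 4 ^ k ≤ n) : e k (WH (hh 𝕜) K s n) = 0 := by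
  by_cases c : Win 𝕜 K s
  · rw [WH_of c, map_sub, H.e_far c.act.low_uK (by omega) (by omega),
      H.e_far c.act.low_uK (by omega) (by omega), sub_self]
  · rw [WH_not c, map_zero]

lemma e_ZZ (c : ex 𝕜 K s < 4 ^ lv K + K) (h1 : 4 ^ k ≤ n) (h2 : n < 4 ^ (k + 1)) :
    e k (ZZ 𝕜 K s n) = 0 ∨
      Win 𝕜 K s ∧ (tag K).2 < k ∧ (s + n) % 4 ^ ((tag K).2 + 2) ≤ (tag K).2 := by
  by_cases h : Win 𝕜 K s
  · rcases le_or_gt (s % 4 ^ ((tag K).2 + 2) + n) (tag K).2 with a | a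
    · exact .inl (by rw [ZZ_win h a, H.e_dd])
    have h3 := (ex_win h c).1
    have h4 := h.act.lv
    have h5 := lt_four (lv K)
    rw [ZZ, map_sub, H.e_WH (by omega) h1, sub_zero]
    by_cases w : Win 𝕜 K (s + n)
    · refine .inr ⟨h, not_le.1 fun b => ?_, w.md⟩
      have h6 := four_le (Nat.succ_le_succ b)
      have h7 := lt_four ((tag K).2 + 1)
      have h8 := w.md
      rw [mod_add (by rw [pow_succ 4 (_ + 1)] at *; omega)] at h8
      omega
    · exact .inl (by rw [hh_not w, H.e_dd])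
  · rw [ZZ_not h]
    rcases lt_trichotomy k K with a | rfl | a
    · exact .inl (by rw [hh_not (ex_not h c (h2.le.trans (four_le a))), H.e_dd])
    · exact .inl (H.e_self ..)
    · exact .inl (by rw [hh_dead (by have := four_le (Nat.succ_le_of_lt a); omega), map_zero])

lemma avg_ZZ (k K s : ℕ) : avg k (fun n => ‖e k ((wt 𝕜 K s)⁻¹ • ZZ 𝕜 K s n)‖) ≤ 10 := by
  by_cases c : ex 𝕜 K s < 4 ^ lv K + K
  swap
  · exact avg_le fun n _ _ => (H.e3 ..).trans (by linarith [ZZ_max c n])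
  rcases lt_or_ge (tag K).2 k with a | a
  · refine (avg_mono (g := fun n => 10 * 2 ^ (tag K).2 *
      if (s + n) % 4 ^ ((tag K).2 + 2) ≤ (tag K).2 then 1 else 0) fun n h1 h2 => ?_).trans ?_
    · rcases H.e_ZZ c h1 h2 with h | ⟨w, -, h⟩
      · rw [map_smul, h, smul_zero, norm_zero]; positivity
      · have : ‖(wt 𝕜 K s)⁻¹ • ZZ 𝕜 K s n‖ ≤ 5 * 2 ^ (tag K).2 := by
          refine norm_inv_wt ((norm_ZZ K s n).trans ?_)
          rw [mul_assoc, ← mul_div_assoc, ← pow_add, mul_le_mul_iff_right₀ (by norm_num),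
            le_div_iff₀ (by positivity), ← pow_add]
          have := (ex_win w c).2
          have := w.act.lv
          have := lt_four (lv K)
          exact pow_le_pow_right₀ one_le_two (by omega)
        rw [if_pos h]
        exact (H.e3 ..).trans (by linarith)
    · rw [avg_mul]
      refine (mul_le_mul_of_nonneg_left (avg_mod_le s k _ a) (by positivity)).trans_eq ?_
      rw [mul_assoc, ← mul_pow]
      norm_num
  · refine avg_le fun n h1 h2 => ?_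
    rw [map_smul, (H.e_ZZ c h1 h2).resolve_right fun h => by omega, smul_zero, norm_zero]
    norm_num

lemma exists_rec (i : ℕ) : ∃ x ∈ recVectors (fun A => 0 < lowerDensity A) T,
    ‖x - OO 𝕜 0 (us 𝕜 i)‖ ≤ 2 * (1 / 2) ^ i := by
  have h0 : Tendsto (fun l : ℕ => (1 / 2 : ℝ) ^ l) atTop (𝓝 0) :=
    tendsto_pow_atTop_nhds_zero_of_lt_one (by norm_num) (by norm_num)
  obtain ⟨x, hx⟩ := cauchySeq_tendsto_of_complete (cauchySeq_of_le_tendsto_0'
    (s := fun N => OO 𝕜 0 (UU 𝕜 i N)) _ (fun N M h => (dist_eq_norm' ..).trans_le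
      (UU_tail h fun K _ _ => hh_small (by simp))) (by simpa using h0.const_mul 2))
  have key : ∀ r N, (∀ K, N ≤ K → 4 * r ≤ 3 * 4 ^ K) →
      ‖(T ^ r) x - OO 𝕜 r (UU 𝕜 i N)‖ ≤ 2 * (1 / 2) ^ N := fun r N h =>
    le_of_tendsto ((((T ^ r).continuous.tendsto x).comp hx).sub_const _).norm
      ((eventually_ge_atTop N).mono fun M hM => by
        simpa only [Function.comp_apply, H.pow_OO] using
          UU_tail hM fun K h1 _ => hh_small (h K h1))
  refine ⟨x, fun U hU => ?_, by simpa [UU_low] using key 0 i fun _ _ => by simp⟩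
  obtain ⟨ε, hε, hb⟩ := Metric.nhds_basis_closedBall.mem_iff.1 hU
  obtain ⟨l, l1, l2, l3, l4⟩ := ((exists_low (us 𝕜 i)).and ((eventually_ge_atTop i).and
    ((tendsto_natCast_atTop_atTop.eventually_ge_atTop (∑ b ∈ (us 𝕜 i).support, ‖us 𝕜 i b‖)).and
      (h0.eventually (ge_mem_nhds (show 0 < ε / 7 by positivity)))))).exists
  refine lowerDensity_retA (i := i) (Nat.zero_le (3 * 4 ^ l)) fun n hn => hb ?_
  obtain ⟨⟨n1, -, n2, n3, n4⟩, n5, n6⟩ := hn
  rw [n5] at n2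
  unfold lev at n5
  generalize Nat.log 4 n = K at *
  have h4 := lt_four l
  have hl : lv K = l := by
    rw [lv, n5, Nat.mul_div_cancel_left _ three_pos, Nat.log_pow (by norm_num)]
    omega
  have hm : n % 4 ^ ((tag K).2 + 2) = 0 := by rw [n5]; exact Nat.mod_eq_zero_of_dvd n6
  have hw : Win 𝕜 K n := ⟨⟨by omega, by omega, by omega, by rwa [hl, n1], by rwa [hl, n1]⟩,
    n3, n4, by omega⟩
  have e1 : OO 𝕜 n (UU 𝕜 i (K + 1)) = OO 𝕜 n (UU 𝕜 i K) +
      (dd 𝕜 K n + (OO 𝕜 0 (UU 𝕜 i l) - OO 𝕜 n (UU 𝕜 i l))) := by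
    rw [UU, if_pos ⟨hw.act, n1⟩, map_add, linearCombination_single, one_smul]
    refine congrArg _ ((congrArg _ (zero_add n)).trans ?_)
    rw [hh_eq, WH_of hw, hm, uK, hl, n1]
    rfl
  have a1 := key n (K + 1) fun K' h => by have := four_le h; omega
  have a2 := key 0 l fun _ _ => by simp
  have a3 := UU_tail (𝕜 := 𝕜) (r := n) (i := i) (show l ≤ K by omega) fun K' _ h => by
    rw [hh_dead (by have := four_le (Nat.succ_le_of_lt h); omega), norm_zero]; positivity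
  have a4 := norm_dd (𝕜 := 𝕜) K n (e := K - l) (by rw [ex, if_pos hw, hm, hl]; omega)
  have a5 := half_pow_le (show l ≤ K + 1 by omega)
  rw [pow_sub₀ _ two_ne_zero (by omega), mul_div_cancel_left₀ _ (by positivity), ← one_div,
    ← one_div_pow] at a4
  rw [mem_closedBall_iff_norm, ← FunLike.coe_pow_eq_iterate, show (T ^ n) x - x =
    ((T ^ n) x - OO 𝕜 n (UU 𝕜 i (K + 1))) + (OO 𝕜 n (UU 𝕜 i K) - OO 𝕜 n (UU 𝕜 i l)) + dd 𝕜 K n -
      (x - OO 𝕜 0 (UU 𝕜 i l)) by rw [e1]; abel]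
  exact (norm_sub_le_of_le (norm_add₃_le.trans (add_le_add (add_le_add a1 a3) a4)) a2).trans
    (by linarith)

lemma frec : FrequentlyRecurrent T := by
  refine fun y => Metric.mem_closure_iff.2 fun ε hε => ?_
  obtain ⟨v, hv⟩ := dense_OO.exists_dist_lt y (show 0 < ε / 3 by positivity)
  obtain ⟨N, hN⟩ := exists_pow_lt_of_lt_one (show 0 < ε / 6 by positivity)
    (show (1 / 2 : ℝ) < 1 by norm_num)
  obtain ⟨i, h1, h2⟩ := (exists_us 𝕜).choose_spec (OO 𝕜 0) v (ε / 3) (by positivity) N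
  obtain ⟨x, h3, h4⟩ := H.exists_rec i
  refine ⟨x, h3, (dist_triangle4 y (OO 𝕜 0 v) (OO 𝕜 0 (us 𝕜 i)) x).trans_lt ?_⟩
  rw [← dist_eq_norm'] at h4
  linarith [half_pow_le h1, show dist (OO 𝕜 0 v) (OO 𝕜 0 (us 𝕜 i)) < ε / 3 from h2]

end Ops

theorem bad_l1 : Bad 𝕜 (L1 𝕜 I1) := by
  obtain ⟨T, hT, -⟩ := exists_lift (𝕜 := 𝕜) (I := I1) (Sum.elim (fun p => dl (.inl (p.1 + 1, p.2)))
    fun p => (wt 𝕜 p.1.1 p.1.2)⁻¹ • ZZ 𝕜 p.1.1 p.1.2 1) (C := 16) (by norm_num) (by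
      rintro (p | p)
      exacts [(norm_dl _).trans_le (by norm_num), ZZ_one ..])
  choose e he he' using fun k => exists_lift (𝕜 := 𝕜) (I := I1) (Sum.elim
    (fun p => if 4 ^ k ≤ p.1 then gl (gg 𝕜 k) (bv p.2) else 0) fun _ => 0) zero_le_two (by
      rintro (p | p)
      · rw [Sum.elim_inl]
        split_ifs
        exacts [(norm_gl_le ..).trans (by linarith [norm_bv (𝕜 := 𝕜) p.2]), by simp]
      · simp)
  obtain ⟨P, hP, -⟩ := exists_lift (𝕜 := 𝕜) (I := I1) (Sum.elim (fun p => (bv p.2 : 𝕜 × 𝕜))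
    fun _ => 0) zero_le_one (by
      rintro (p | p)
      exacts [norm_bv _, by simp])
  have H : Ops T e := ⟨fun _ _ => hT _, fun _ _ _ => hT _, fun _ _ _ => he .., fun _ _ => he .., he'⟩
  have h1 : ∀ k p, th T P (e k) (gg 𝕜 k) k (dl (.inl p)) = 0 := fun k p =>
    le_antisymm (avg_le fun n h _ => by
      rw [H.pow_inl, H.e1, if_pos (by omega), hP, Sum.elim_inl, sub_self, norm_zero])
      (apply_nonneg _ _)
  have h2 : ∀ k K s h, th T P (e k) (gg 𝕜 k) k (dl (.inr ⟨(K, s), h⟩)) =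
      avg k fun n => ‖e k ((wt 𝕜 K s)⁻¹ • ZZ 𝕜 K s n)‖ := fun k K s h => by
    simp only [th_apply, H.pow_inr, hP, Sum.elim_inr, map_zero, sub_zero]
  refine ⟨T, H.frec, crit T P (fun v => ⟨v.1 • dl (.inl (0, false)) + v.2 • dl (.inl (0, true)),
    by simp [hP, bv]⟩) e (gg 𝕜) gg_ne two_pos he'
    (l1_lim (fun k => (normSeminorm 𝕜 𝕜).comp (e k : L1 𝕜 I1 →ₗ[𝕜] 𝕜))
      (fun k => (e k).continuous.norm) (C := 2) (fun k a => by simpa using he' k (dl a)) ?_)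
    (l1_lim _ (fun k => continuous_th ..) (C := 10) ?_ ?_)⟩
  · rintro (⟨t, β⟩ | p)
    · exact (eventually_ge_atTop t).mono fun k hk => norm_eq_zero.2 ((H.e1 ..).trans
        (if_neg (by have := lt_four k; omega)))
    · exact .of_forall fun k => norm_eq_zero.2 (H.e2 ..)
  · rintro k (p | ⟨⟨K, s⟩, h⟩)
    · rw [h1]; norm_num
    · rw [h2]; exact H.avg_ZZ ..
  · rintro (p | ⟨⟨K, s⟩, h⟩)
    · exact .of_forall (h1 · p)
    · refine (eventually_gt_atTop K).mono fun k hk => le_antisymm ?_ (apply_nonneg _ _)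
      rw [h2]
      refine avg_le fun n h _ => ?_
      have := four_le (Nat.succ_le_of_lt hk)
      have := four_le (lv_le K)
      rw [map_smul, ZZ, map_sub, hh_dead (by omega), H.e_WH (by omega) h, map_zero, sub_self,
        smul_zero, norm_zero]

end Pool.Agent.P.MP_cd1425_an.Cl
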