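import Pool.Agent.P.MP_cd1425_an.Cl.Crit

/-! Direct sums of recurrent operators on reflexive spaces. -/

set_option autoImplicit false

open Filter Topology Function MeasureTheory Set Metric

namespace Pool.Agent.P.MP_cd1425_an.Cl

lemma cnt_eq (A : Set ℕ) (N : ℕ) : (cnt A 0 N : ℝ) = ∑ n ∈ Finset.range N, A.indicator 1 n := by
  classical
  simp only [cnt, zero_add, Set.indicator_apply, Pi.one_apply, Finset.sum_boole]

/-- A consequence of the maximal ergodic lemma. -/
theorem ae_return {Ω : Type*} [MeasurableSpace Ω] {μ : Measure Ω} [IsProbabilityMeasure μ]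
    {σ : Ω → Ω} (hσ : MeasurePreserving σ μ μ) {A : Set Ω} (hA : MeasurableSet A) :
    ∀ᵐ ω ∂μ, ω ∈ A → ∃ ε : ℝ, 0 < ε ∧ ∀ k : ℕ, ε * k ≤ cnt {n | σ^[n] ω ∈ A} 0 k := by
  have key : ∀ ε : ℝ, 0 < ε → μ.real {ω | ω ∈ A ∧ ∃ k : ℕ, cnt {n | σ^[n] ω ∈ A} 0 k < ε * k} ≤ ε := by
    intro ε hε
    let f : Ω → ℝ := fun ω => ε - A.indicator 1 ω
    have hf : Integrable f μ := (integrable_const ε).sub ((integrable_const 1).indicator hA)
    have hfm : Measurable f := measurable_const.sub (measurable_const.indicator hA)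
    let M : ℕ → Ω → ℝ := fun N => N.rec (fun _ => 0) fun _ g ω => max 0 (f ω + g (σ ω))
    have hM : ∀ N, Measurable (M N) ∧ Integrable (M N) μ := fun N => by
      induction N with
      | zero => exact ⟨measurable_const, integrable_const _⟩
      | succ N ih => exact ⟨measurable_const.max (hfm.add (ih.1.comp hσ.measurable)),
          (integrable_const _).sup (hf.add (hσ.integrable_comp_of_integrable ih.2))⟩
    have hmono : ∀ N ω, M N ω ≤ M (N + 1) ω := fun N => by
      induction N with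
      | zero => exact fun ω => le_max_left _ _
      | succ N ih => exact fun ω => max_le_max le_rfl (add_le_add_right (ih _) _)
    have hS : ∀ (k : ℕ) ω, ε * k - cnt {n | σ^[n] ω ∈ A} 0 k ≤ M k ω := fun k => by
      induction k with
      | zero => simp [M, cnt]
      | succ k ih =>
        refine fun ω => le_max_of_le_right (le_trans (le_of_eq ?_) (add_le_add_right (ih _) _))
        rw [cnt_eq, cnt_eq, Finset.sum_range_succ']
        push_cast
        change _ - (∑ n ∈ _, Set.indicator {n | σ^[n] (σ ω) ∈ A} 1 n + A.indicator 1 ω) = _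
        ring
    have hE : ∀ N, μ.real (A ∩ {ω | 0 < M (N + 1) ω}) ≤ ε := fun N => by
      have hm : MeasurableSet {ω | 0 < M (N + 1) ω} :=
        measurableSet_lt measurable_const (hM (N + 1)).1
      have hi := hσ.integrable_comp_of_integrable (hM N).2
      have h1 := integral_mono (hM (N + 1)).2 ((hf.indicator hm).add hi) fun ω => by
        by_cases h : 0 < M (N + 1) ω
        · rw [Pi.add_apply, indicator_of_mem (by exact h)]
          exact max_le (le_of_lt ((lt_max_iff.1 h).resolve_left (lt_irrefl _))) le_rfl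
        · rw [Pi.add_apply, indicator_of_notMem (by exact h), zero_add]
          refine (not_lt.1 h).trans ?_
          cases N
          exacts [le_rfl, le_max_left _ _]
      have h2 := integral_mono (hM N).2 (hM (N + 1)).2 (hmono N)
      have h3 : ∫ ω, (M N ∘ σ) ω ∂μ = ∫ ω, M N ω ∂μ := by
        rw [← hσ.map_eq, integral_map hσ.aemeasurable (hM N).1.aestronglyMeasurable, hσ.map_eq]
        rfl
      rw [integral_add' (hf.indicator hm) hi, h3, integral_indicator hm, integral_sub
        (g := A.indicator 1) (integrable_const ε) ((integrable_const 1).indicator hA),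
        integral_indicator_one hA,
        setIntegral_const, measureReal_restrict_apply hA, smul_eq_mul] at h1
      nlinarith [measureReal_le_one (μ := μ) (s := {ω | 0 < M (N + 1) ω})]
    refine (measureReal_mono (s₂ := ⋃ N, A ∩ {ω | 0 < M (N + 1) ω}) (by
      exact fun ω ⟨h1, k, h2⟩ =>
        mem_iUnion.2 ⟨k, h1, (sub_pos.2 h2).trans_le ((hS k ω).trans (hmono k ω))⟩)).trans ?_
    exact le_of_tendsto' ((ENNReal.tendsto_toReal (measure_ne_top _ _)).comp
      (tendsto_measure_iUnion_atTop (monotone_nat_of_le_succ fun N ω h =>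
        ⟨h.1, lt_of_lt_of_le h.2 (hmono (N + 1) ω)⟩))) hE
  refine (measureReal_eq_zero_iff (measure_ne_top _ _)).1 (le_antisymm
    (le_of_forall_pos_le_add fun ε hε => ?_) measureReal_nonneg)
  refine (measureReal_mono fun ω h => ?_).trans ((key ε hε).trans_eq (zero_add ε).symm)
  simp only [mem_compl_iff, mem_ofPred_eq] at h
  push Not at h
  exact ⟨h.1, h.2 ε hε⟩

/-- The construction of Krylov and Bogolyubov. -/
theorem exists_invariant {Ω : Type*} [TopologicalSpace Ω] [CompactSpace Ω] [T2Space Ω]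
    [MeasurableSpace Ω] [BorelSpace Ω] [HasOuterApproxClosed Ω] {σ : Ω → Ω} (hσ : Continuous σ)
    (ω : Ω) {F : Set Ω} (hF : IsClosed F) {A : Set ℕ} (hA : ∀ n ∈ A, σ^[n] ω ∈ F)
    (h : 0 < upperDensity A) :
    ∃ μ : ProbabilityMeasure Ω, MeasurePreserving σ μ μ ∧ (μ : Measure Ω) F ≠ 0 := by
  obtain ⟨δ, hδ, h⟩ := exists_between h
  have := frequently_iff_neBot.1 (frequently_lt_of_lt_limsup
    (isCoboundedUnder_le_of_le atTop fun N => windowDensity_nonneg A 0 N) h)
  let m : ℕ → ProbabilityMeasure Ω := fun N =>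
    ⟨(N + 1 : ENNReal)⁻¹ • ∑ j ∈ Finset.range (N + 1), .dirac (σ^[j] ω), ⟨by
      simpa using ENNReal.inv_mul_cancel (by simp) (by simp)⟩⟩
  have hm : ∀ N (g : Ω → ℝ), Measurable g → ∫ x, g x ∂(m N : Measure Ω) =
      (N + 1 : ℝ)⁻¹ * ∑ j ∈ Finset.range (N + 1), g (σ^[j] ω) := fun N g hg => by
    change ∫ x, g x ∂(_ • _) = _
    rw [integral_smul_measure, integral_finsetSum_measure fun _ _ =>
      integrable_dirac' hg.stronglyMeasurable enorm_lt_top]
    simp [integral_dirac' _ _ hg.stronglyMeasurable, ENNReal.toReal_add]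
  let U := Ultrafilter.of (atTop ⊓ 𝓟 {N | δ < windowDensity A 0 N})
  have hU := le_inf_iff.1 (Ultrafilter.of_le (atTop ⊓ 𝓟 {N | δ < windowDensity A 0 N}))
  obtain ⟨μ, -, hμ⟩ := isCompact_univ.ultrafilter_le_nhds (U.map m) (by simp)
  replace hμ : Tendsto m U (𝓝 μ) := hμ
  refine ⟨μ, ⟨hσ.measurable, ext_of_forall_integral_eq_of_IsFiniteMeasure fun g => ?_⟩,
    ((ENNReal.ofReal_pos.2 hδ).trans_le (le_trans (le_limsup_of_frequently_le
      (eventually_of_mem (le_principal_iff.1 hU.2) fun N hN => ?_).frequently)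
      (ProbabilityMeasure.limsup_measure_closed_le_of_tendsto hμ hF))).ne'⟩
  · have h1 := ProbabilityMeasure.tendsto_iff_forall_integral_tendsto.1 hμ
    rw [integral_map hσ.measurable.aemeasurable g.continuous.aestronglyMeasurable, ← sub_eq_zero]
    refine tendsto_nhds_unique ((h1 (g.compContinuous ⟨σ, hσ⟩)).sub (h1 g)) (.mono_left ?_ hU.1)
    refine squeeze_zero_norm (fun N => ?_) (by
      simpa using tendsto_one_div_add_atTop_nhds_zero_nat.mul_const (2 * ‖g‖))
    rw [hm _ _ (by fun_prop), hm _ _ (by fun_prop), ← mul_sub, ← Finset.sum_sub_distrib, norm_mul,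
      Real.norm_of_nonneg (by positivity)]
    gcongr
    have := Finset.sum_range_sub (fun j => g (σ^[j] ω)) (N + 1)
    simp only [iterate_succ_apply'] at this
    exact (congrArg norm this).trans_le (g.dist_le_two_norm _ _)
  · rw [ENNReal.ofReal_le_iff_le_toReal (measure_ne_top _ _), ← Measure.real,
      ← integral_indicator_one hF.measurableSet, hm _ _ (measurable_one.indicator hF.measurableSet)]
    refine le_trans (le_of_lt hN) ?_
    rw [windowDensity_eq, cnt_eq, div_eq_inv_mul]
    gcongr with j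
    exact indicator_apply_le' (fun h => (indicator_of_mem (hA j h) 1).ge)
      fun _ => indicator_nonneg (fun _ _ => zero_le_one) _

variable {𝕜 : Type} [RCLike 𝕜] {X : Type*} [NormedAddCommGroup X] [NormedSpace 𝕜 X]

theorem positive [TopologicalSpace.SeparableSpace X] {ι : Type*} [Countable ι]
    (φ : ι → StrongDual 𝕜 X) (hφ : ∀ x y, (∀ i, φ i x = φ i y) → x = y)
    (hX : Surjective (NormedSpace.inclusionInDoubleDual 𝕜 X)) (T : X →L[𝕜] X)
    (hT : UFrequentlyRecurrent T) (n : ℕ) : FrequentlyRecurrent (directSum n T) := by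
  obtain ⟨h, hc, hi⟩ : ∃ h : 𝕜 → closedBall (0 : 𝕜) 1, Continuous h ∧ Injective h :=
    ⟨inclusion ball_subset_closedBall ∘ Homeomorph.unitBall,
      (continuous_inclusion _).comp Homeomorph.unitBall.continuous,
      (inclusion_injective _).comp Homeomorph.unitBall.injective⟩
  let Φ : X → ℕ → ι → closedBall (0 : 𝕜) 1 := fun y k i => h (φ i ((T ^ k) y))
  let σ : (ℕ → ι → closedBall (0 : 𝕜) 1) → ℕ → ι → closedBall (0 : 𝕜) 1 := fun ω k => ω (k + 1)
  have hσ : Continuous σ := by fun_prop
  have hΦ : Injective Φ := fun x y e => hφ x y fun i => hi (congrFun (congrFun e 0) i)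
  have hs : Semiconj Φ T σ := fun y => by ext k i; simp only [Φ, σ, pow_succ]; rfl
  have hcl : ∀ z ρ, IsClosed (Φ '' closedBall z ρ) := fun z ρ => by
    have e := (NormedSpace.inclusionInDoubleDualLi 𝕜 (E := X)).isometry.dist_eq
    have hΨ : Continuous fun (ξ : WeakDual 𝕜 (StrongDual 𝕜 X)) (k : ℕ) (i : ι) =>
        h (ξ (φ i ∘L (T ^ k))) := continuous_pi fun k => continuous_pi fun i =>
      hc.comp (WeakDual.eval_continuous (φ i ∘L (T ^ k)))
    convert ((WeakDual.isCompact_closedBall (NormedSpace.inclusionInDoubleDual 𝕜 X z) ρ).image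
      hΨ).isClosed
    refine Subset.antisymm ?_ ?_
    · rintro _ ⟨y, hy, rfl⟩
      exact ⟨NormedSpace.inclusionInDoubleDual 𝕜 X y, (e y z).trans_le hy, rfl⟩
    · rintro _ ⟨ξ, hξ, rfl⟩
      obtain ⟨y, rfl⟩ := hX ξ
      exact ⟨y, (e y z).symm.trans_le hξ, rfl⟩
  clear_value Φ σ
  refine fun ξ => Metric.mem_closure_iff.2 fun ε hε => ?_
  choose x hx hx' using fun i => hT.exists_dist_lt (ξ i) (half_pos hε)
  choose μ hμ hμ' using fun i => exists_invariant hσ (Φ (x i)) (hcl (x i) (ε / 2))
    (A := returnSet T (x i) (closedBall (x i) (ε / 2)))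
    (fun k hk => ⟨_, hk, hs.iterate_right k _⟩) (hx i _ (closedBall_mem_nhds _ (half_pos hε)))
  have : Nonempty X := ⟨0⟩
  obtain ⟨d, hd⟩ := TopologicalSpace.exists_dense_seq X
  obtain ⟨ω, h1, h2⟩ := Measure.exists_mem_of_measure_ne_zero_of_ae
    (μ := Measure.pi fun i => (μ i : Measure _))
    (s := univ.pi fun i => Φ '' closedBall (x i) (ε / 2))
    (by rw [Measure.pi_pi]; exact Finset.prod_ne_zero_iff.2 fun i _ => hμ' i)
    (ae_restrict_of_ae (ae_all_iff.2 fun p : ℕ × (Fin n → ℕ) => ae_return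
      (measurePreserving_pi _ _ hμ) (MeasurableSet.univ_pi fun i =>
        (hcl (d (p.2 i)) (1 / (p.1 + 1))).measurableSet)))
  choose y hy hy' using fun i => h1 i trivial
  refine ⟨y, fun U hU => ?_, (dist_pi_lt_iff hε).2 fun i => by
    linarith [dist_triangle_right (ξ i) (y i) (x i), hx' i, mem_closedBall.1 (hy i)]⟩
  obtain ⟨r, hr, hU⟩ := nhds_basis_closedBall.mem_iff.1 hU
  obtain ⟨m, hm⟩ := exists_nat_one_div_lt (half_pos hr)
  choose z hz using fun i => hd.exists_dist_lt (y i) (Nat.one_div_pos_of_nat (n := m))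
  obtain ⟨δ, hδ, h3⟩ := h2 (m, z) fun i _ => ⟨y i, (hz i).le, hy' i⟩
  refine lowerDensity_pos_of hδ (.of_forall fun N => ?_)
  rw [← Nat.cast_succ]
  refine le_trans (h3 (N + 1)) (Nat.cast_le.2 (cnt_mono (fun k hk => hU ?_) 0 _))
  refine (dist_pi_le_iff hr.le).2 fun i => ?_
  obtain ⟨w, w1, w2⟩ := hk i trivial
  have e : Semiconj (fun (η : Fin n → X) i => Φ (η i)) (directSum n T) fun ω i => σ (ω i) :=
    fun η => funext fun i => hs (η i)
  rw [← funext hy', ← e.iterate_right k y] at w2
  rw [← hΦ w2]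
  linarith [dist_triangle_right w (y i) (d (z i)), mem_closedBall.1 w1, hz i]

end Pool.Agent.P.MP_cd1425_an.Cl
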